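import Mathlib

set_option autoImplicit false

/-!
# The rate function of the Poisson distribution
-/

namespace Pool.Agent.Q127.LR

open Real Filter

/-- `h x = x log x - x + 1`. -/
noncomputable def hh (x : ℝ) : ℝ := x * log x - x + 1

/-- `Φ l x = x log (x / l) - x + l`. -/
noncomputable def Ph (l x : ℝ) : ℝ := x * log (x / l) - x + l

theorem Ph_eq {l : ℝ} (hl : 0 < l) (x : ℝ) : Ph l x = l * hh (x / l) := by
  unfold Ph hh
  field_simp

theorem log_lower {x : ℝ} (hx : 0 < x) : 1 - 1 / x ≤ log x := by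
  have := Real.one_sub_inv_le_log_of_pos hx
  rwa [one_div]

theorem hh_mono {x y : ℝ} (hx : 1 ≤ x) (hxy : x ≤ y) : hh x ≤ hh y := by
  unfold hh
  have hx0 : 0 < x := by linarith
  have hy0 : 0 < y := by linarith
  have h1 : 1 - 1 / (y / x) ≤ log (y / x) := log_lower (by positivity)
  rw [log_div hy0.ne' hx0.ne'] at h1
  have h2 : 1 / (y / x) = x / y := by field_simp
  rw [h2] at h1
  have hlx : 0 ≤ log x := log_nonneg hx
  -- y log y - x log x = x (log y - log x) + (y - x) log y
  have h3 : x * (1 - x / y) ≤ x * (log y - log x) := mul_le_mul_of_nonneg_left h1 hx0.le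
  have h4 : (y - x) * (1 - x / y) ≤ (y - x) * log y :=
    mul_le_mul_of_nonneg_left (by linarith) (by linarith)
  have h5 : x * (1 - x / y) + (y - x) * (1 - x / y) = y - x := by
    field_simp
    ring
  nlinarith

theorem hh_diff {x y : ℝ} (hx : 1 ≤ x) (hxy : x ≤ y) : hh y ≤ hh x + (y - x) * log y := by
  unfold hh
  have hx0 : 0 < x := by linarith
  have hy0 : 0 < y := by linarith
  have h1 : log (y / x) ≤ y / x - 1 := log_le_sub_one_of_pos (by positivity)
  rw [log_div hy0.ne' hx0.ne'] at h1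
  have h3 : x * (log y - log x) ≤ x * (y / x - 1) := mul_le_mul_of_nonneg_left h1 hx0.le
  have h5 : x * (y / x - 1) = y - x := by field_simp
  nlinarith

theorem hh_pos {x : ℝ} (hx : 1 < x) : 0 < hh x := by
  unfold hh
  have hx0 : 0 < x := by linarith
  have h1 : log (1 / x) < 1 / x - 1 := log_lt_sub_one_of_pos (by positivity) (by
    intro h
    rw [div_eq_one_iff_eq hx0.ne'] at h
    linarith)
  rw [one_div, log_inv] at h1
  have h2 : x * (1 - x⁻¹) < x * log x := mul_lt_mul_of_pos_left (by linarith) hx0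
  have h3 : x * (1 - x⁻¹) = x - 1 := by field_simp
  linarith

theorem hh_ratio (θ M : ℝ) (hθ : 0 < θ) (hM : 1 ≤ M) : ∃ η : ℝ, 0 < η ∧ ∀ y : ℝ, 1 + θ ≤ y →
    η * hh (M * y) ≤ hh y := by
  set z := 1 + θ with hz
  have hz1 : 1 < z := by linarith
  set c := hh z / z with hc
  have hc0 : 0 < c := div_pos (hh_pos hz1) (by linarith)
  -- hh y ≥ c y
  have hlin : ∀ y, z ≤ y → c * y ≤ hh y := by
    intro y hy
    have hz0 : 0 < z := by linarith
    have hy0 : 0 < y := by linarith
    have h1 : 1 - 1 / (y / z) ≤ log (y / z) := log_lower (by positivity)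
    rw [log_div hy0.ne' hz0.ne'] at h1
    have h2 : 1 / (y / z) = z / y := by field_simp
    rw [h2] at h1
    have h3 : c = log z - 1 + 1 / z := by
      rw [hc]; unfold hh; field_simp
    have h4 : hh y = y * (log y - 1 + 1 / y) := by unfold hh; field_simp
    rw [h4, mul_comm]
    apply mul_le_mul_of_nonneg_left _ hy0.le
    rw [h3]
    have h5 : 1 / z - 1 / y ≤ 1 - z / y := by
      have : 1 / z - 1 / y = (1 - z / y) / z := by field_simp
      rw [this]
      apply div_le_self _ hz1.le
      rw [sub_nonneg, div_le_one hy0]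
      exact hy
    linarith
  have hM0 : 0 < M := by linarith
  have hlM : 0 ≤ log M := log_nonneg hM
  set A := 4 + 2 * log M with hA
  set B := M * (log M + A) with hB
  have hB0 : 0 < B := by rw [hB]; apply mul_pos hM0; linarith
  refine ⟨min (c / B) (1 / (2 * M)), by positivity, ?_⟩
  intro y hy
  have hy0 : 0 < y := by linarith
  have hlMy : log (M * y) = log M + log y := log_mul hM0.ne' hy0.ne'
  have hMy1 : 1 < M * y := by nlinarith
  have hMy0 : 0 < hh (M * y) := hh_pos hMy1
  by_cases hyA : log y ≤ A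
  · have h1 : hh (M * y) ≤ B * y := by
      unfold hh
      rw [hlMy, hB]
      have h2 : M * y * (log M + log y) ≤ M * y * (log M + A) :=
        mul_le_mul_of_nonneg_left (by linarith) (by positivity)
      nlinarith
    calc min (c / B) (1 / (2 * M)) * hh (M * y) ≤ c / B * hh (M * y) :=
          mul_le_mul_of_nonneg_right (min_le_left _ _) hMy0.le
      _ ≤ c / B * (B * y) := mul_le_mul_of_nonneg_left h1 (by positivity)
      _ = c * y := by field_simp
      _ ≤ hh y := hlin y hy
  · push Not at hyA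
    have hly4 : 4 ≤ log y := by linarith
    have h1 : hh (M * y) ≤ M * y * (3 / 2 * log y) := by
      unfold hh
      rw [hlMy]
      have h2 : M * y * (log M + log y) ≤ M * y * (3 / 2 * log y) :=
        mul_le_mul_of_nonneg_left (by linarith) (by positivity)
      linarith
    calc min (c / B) (1 / (2 * M)) * hh (M * y) ≤ 1 / (2 * M) * hh (M * y) :=
          mul_le_mul_of_nonneg_right (min_le_right _ _) hMy0.le
      _ ≤ 1 / (2 * M) * (M * y * (3 / 2 * log y)) :=
          mul_le_mul_of_nonneg_left h1 (by positivity)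
      _ = 3 / 4 * (y * log y) := by field_simp; ring
      _ ≤ hh y := by
        unfold hh
        have h6 : 0 ≤ y * (log y - 4) := mul_nonneg hy0.le (by linarith)
        nlinarith

theorem h2_lower : 0.386 < hh 2 := by
  unfold hh
  have := log_two_gt_d9
  linarith

/-- If `h x` is a little larger than `h 2` then `x` is a little larger than `2`. -/
theorem hh_large {ε x : ℝ} (hε : 0 < ε) (hε1 : ε ≤ 1) (hx : 1 ≤ x)
    (h : (1 + ε / 2) * hh 2 < hh x) : 2 + ε / 6 ≤ x := by
  by_contra hno
  push Not at hno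
  have h1 : hh x ≤ hh (2 + ε / 6) := hh_mono hx hno.le
  have h2 : hh (2 + ε / 6) ≤ hh 2 + (2 + ε / 6 - 2) * log (2 + ε / 6) :=
    hh_diff (by norm_num) (by linarith)
  have h3 : log (2 + ε / 6) ≤ 0.78 := by
    have h4 : 2 + ε / 6 = 2 * (1 + ε / 12) := by ring
    rw [h4, log_mul (by norm_num) (by linarith)]
    have h5 : log (1 + ε / 12) ≤ ε / 12 := by
      have := log_le_sub_one_of_pos (show 0 < 1 + ε / 12 by linarith)
      linarith
    have := log_two_lt_d9
    linarith
  have h6 := h2_lower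
  have h7 : (2 + ε / 6 - 2) * log (2 + ε / 6) ≤ (2 + ε / 6 - 2) * 0.78 :=
    mul_le_mul_of_nonneg_left h3 (by linarith)
  nlinarith

theorem Ph_ge {l x : ℝ} (hl : 0 < l) (hx : 8 * l ≤ x) : x ≤ Ph l x := by
  unfold Ph
  have hx0 : 0 < x := by linarith
  have h1 : log 8 ≤ log (x / l) := log_le_log (by norm_num) (by rw [le_div_iff₀ hl]; exact hx)
  have h2 : log 8 = 3 * log 2 := by
    rw [show (8 : ℝ) = 2 ^ 3 by norm_num, log_pow]; norm_num
  have h3 := log_two_gt_d9
  have h4 : x * 2 ≤ x * log (x / l) := mul_le_mul_of_nonneg_left (by linarith) hx0.le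
  linarith

/-- The choice of the degree. -/
theorem exists_deg {l R : ℝ} (hl : 0 < l) (hR : Ph l ⌈l⌉₊ ≤ R) :
    ∃ X : ℕ, l ≤ X ∧ Ph l X ≤ R ∧ R < Ph l (X + 1) := by
  by_contra hno
  push Not at hno
  have hall : ∀ X : ℕ, ⌈l⌉₊ ≤ X → Ph l X ≤ R := by
    intro X hX
    induction X, hX using Nat.le_induction with
    | base => exact hR
    | succ X hX ih =>
      have h1 : l ≤ X := (Nat.le_ceil l).trans (by exact_mod_cast hX)
      have := hno X h1 ih
      push_cast
      exact this
  obtain ⟨m, hm⟩ := exists_nat_gt (max (8 * l) R)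
  have h1 : 8 * l < m := lt_of_le_of_lt (le_max_left _ _) hm
  have h2 : R < m := lt_of_le_of_lt (le_max_right _ _) hm
  have h3 : ⌈l⌉₊ ≤ m := by
    rw [Nat.ceil_le]
    linarith
  have h4 := hall m h3
  have h5 := Ph_ge hl h1.le
  linarith

theorem Ph_ceil {l δ L : ℝ} (hl : 0 < l) (hδ : 0 ≤ δ) (hL : 0 ≤ L) (h : exp (-(δ * L)) ≤ l) :
    Ph l ⌈l⌉₊ ≤ δ * L + 1 := by
  rcases le_total l 1 with h1 | h1
  · have h2 : ⌈l⌉₊ = 1 := by
      rw [Nat.ceil_eq_iff (by norm_num)]
      simp [hl, h1]
    rw [h2]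
    unfold Ph
    push_cast
    rw [one_div, log_inv]
    have h3 : -(δ * L) ≤ log l := by
      rw [← log_exp (-(δ * L))]
      exact log_le_log (exp_pos _) h
    linarith
  · set c : ℝ := (⌈l⌉₊ : ℝ) with hc
    have h2 : l ≤ c := Nat.le_ceil l
    have h3 : c < l + 1 := Nat.ceil_lt_add_one hl.le
    have hc0 : 0 < c := by linarith
    have h4 : log (c / l) ≤ c / l - 1 := log_le_sub_one_of_pos (by positivity)
    have h5 : c * log (c / l) ≤ c * (c / l - 1) := mul_le_mul_of_nonneg_left h4 hc0.le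
    have h6 : c * (c / l - 1) - c + l = (c - l) ^ 2 / l := by field_simp; ring
    have h7 : (c - l) ^ 2 / l ≤ 1 := by
      rw [div_le_one hl]
      nlinarith
    have h8 : 0 ≤ δ * L := mul_nonneg hδ hL
    unfold Ph
    linarith

end Pool.Agent.Q127.LR
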