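import Pool.Agent.Q127.LR.Union

set_option autoImplicit false
set_option linter.unusedSectionVars false

/-!
# The probability of a cluster
-/

namespace Pool.Agent.Q127.LR

open Finset Pool.Agent.TH559.LE Pool.Agent.TH948.SH Pool.Agent.TH965.Spread Pool.Agent.TH965.Emb
open scoped Classical

variable {n : ℕ}

theorem cluster_prob (p : ℝ) (hp0 : 0 ≤ p) (hp1 : p ≤ 1) (k : ℕ) (hk : 1 ≤ k) (κ s : ℝ)
    (hs : 0 ≤ s) :
    gnp n p (fun G => ∃ (W : Finset (Fin n)) (T : Finset (Sym2 (Fin n))), Piece G W T ∧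
      W.card ≤ 2 * k - 1 ∧ k ≤ (W.filter fun v => κ ≤ (dg G v : ℝ)).card) ≤
      2 * k * 2 ^ (8 * k ^ 2) * (n * (1 + n * p) ^ (2 * k)) *
        Real.exp (-(k * (s * (κ - 2 * k))) + k * (p * n * (Real.exp s - 1))) := by
  set Z : ℝ := Real.exp (-(k * (s * (κ - 2 * k))) + k * (p * n * (Real.exp s - 1))) with hZ
  have hZ0 : 0 ≤ Z := (Real.exp_pos _).le
  set Q : ℕ → Finset (Sym2 (Fin n)) × Finset (Fin n) → SimpleGraph (Fin n) → Prop := fun t q G =>
    q.1.card + 1 = t ∧ q.2.card = k ∧ (∀ e ∈ q.1, e ∈ G.edgeSet) ∧ ∀ v ∈ q.2, κ ≤ (dg G v : ℝ)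
    with hQ
  have h1 : gnp n p (fun G => ∃ (W : Finset (Fin n)) (T : Finset (Sym2 (Fin n))), Piece G W T ∧
      W.card ≤ 2 * k - 1 ∧ k ≤ (W.filter fun v => κ ≤ (dg G v : ℝ)).card) ≤
      gnp n p (fun G => ∃ t ∈ Icc 1 (2 * k - 1), ∃ W ∈ powersetCard t (univ : Finset (Fin n)),
        ∃ q ∈ W.sym2.powerset ×ˢ W.powerset, Q t q G) := by
    apply gnp_imp hp0 hp1
    rintro G ⟨W, T, hP, h2, h3⟩
    obtain ⟨I, hI, hIc⟩ := exists_subset_card_eq h3
    refine ⟨W.card, ?_, W, mem_powersetCard.2 ⟨subset_univ _, rfl⟩, (T, I), ?_, hP.card, hIc,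
      hP.sub, ?_⟩
    · have := hP.card
      rw [mem_Icc]; omega
    · rw [mem_product, mem_powerset, mem_powerset]
      refine ⟨?_, hI.trans (filter_subset _ _)⟩
      intro e he
      rw [mem_sym2_iff]
      exact hP.ins e he
    · intro v hv
      exact (mem_filter.1 (hI hv)).2
  refine h1.trans ((gnp_union hp0 hp1 _ _).trans ?_)
  have hmain : ∀ t ∈ Icc 1 (2 * k - 1), gnp n p (fun G =>
      ∃ W ∈ powersetCard t (univ : Finset (Fin n)),
        ∃ q ∈ W.sym2.powerset ×ˢ W.powerset, Q t q G) ≤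
      2 ^ (8 * k ^ 2) * (n * (1 + n * p) ^ (2 * k)) * Z := by
    intro t ht
    rw [mem_Icc] at ht
    have ht2 : t ≤ 2 * k := by omega
    refine (gnp_union hp0 hp1 _ _).trans ?_
    have hW : ∀ W ∈ powersetCard t (univ : Finset (Fin n)), gnp n p (fun G =>
        ∃ q ∈ W.sym2.powerset ×ˢ W.powerset, Q t q G) ≤ 2 ^ (8 * k ^ 2) * (p ^ (t - 1) * Z) := by
      intro W hWt
      rw [mem_powersetCard] at hWt
      refine (gnp_union hp0 hp1 _ _).trans ?_
      have hq : ∀ q ∈ W.sym2.powerset ×ˢ W.powerset, gnp n p (Q t q) ≤ p ^ (t - 1) * Z := by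
        rintro ⟨T, I⟩ hq
        rw [mem_product, mem_powerset, mem_powerset] at hq
        have hnn : 0 ≤ p ^ (t - 1) * Z := mul_nonneg (pow_nonneg hp0 _) hZ0
        have hfalse : ∀ P : SimpleGraph (Fin n) → Prop, (∀ G, ¬ P G) → gnp n p P ≤ 0 :=
          fun P hP => (model_gnp p hp0 hp1).false P hP
        by_cases h2 : T.card + 1 = t
        swap
        · exact (hfalse _ fun G hG => h2 hG.1).trans hnn
        by_cases h3 : I.card = k
        swap
        · exact (hfalse _ fun G hG => h3 hG.2.1).trans hnn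
        by_cases h4 : ∀ e ∈ T, ¬ e.IsDiag
        swap
        · push Not at h4
          obtain ⟨e, he, hed⟩ := h4
          exact (hfalse _ fun G hG => G.not_isDiag_of_mem_edgeSet (hG.2.2.1 e he) hed).trans hnn
        have h5 := cluster_bound p hp0 hp1 W I hq.2 T h4
          (fun e he => (mem_sym2_iff.1 (hq.1 he))) κ s hs
        refine (gnp_imp hp0 hp1 (fun G hG => hG.2.2)).trans (h5.trans ?_)
        have h6 : T.card = t - 1 := by omega
        rw [h6]
        apply mul_le_mul_of_nonneg_left _ (pow_nonneg hp0 _)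
        apply Real.exp_le_exp.2
        rw [h3, hWt.2]
        have h7 : (t : ℝ) ≤ 2 * k := by exact_mod_cast ht2
        have h8 : s * (κ - 2 * k) ≤ s * (κ - t) := mul_le_mul_of_nonneg_left (by linarith) hs
        have h9 : (k : ℝ) * (s * (κ - 2 * k)) ≤ k * (s * (κ - t)) :=
          mul_le_mul_of_nonneg_left h8 (by positivity)
        linarith
      refine (sum_le_sum hq).trans ?_
      rw [sum_const, nsmul_eq_mul, card_product, card_powerset, card_powerset]
      apply mul_le_mul_of_nonneg_right _ (mul_nonneg (pow_nonneg hp0 _) hZ0)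
      push_cast
      rw [← pow_add]
      apply pow_le_pow_right₀ (by norm_num)
      have h10 := card_sym2_le W
      rw [hWt.2] at h10 ⊢
      have h11 : t ^ 2 ≤ (2 * k) ^ 2 := Nat.pow_le_pow_left ht2 2
      nlinarith
    refine (sum_le_sum hW).trans ?_
    rw [sum_const, nsmul_eq_mul, card_powersetCard, card_univ, Fintype.card_fin]
    have h12 : ((n.choose t : ℕ) : ℝ) * p ^ (t - 1) ≤ n * (1 + n * p) ^ (2 * k) := by
      obtain ⟨b, rfl⟩ : ∃ b, t = b + 1 := ⟨t - 1, by omega⟩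
      rw [Nat.add_sub_cancel]
      have h13 : ((n.choose (b + 1) : ℕ) : ℝ) ≤ (n : ℝ) ^ (b + 1) := by
        exact_mod_cast Nat.choose_le_pow n (b + 1)
      have hnp : 0 ≤ (n : ℝ) * p := by positivity
      calc ((n.choose (b + 1) : ℕ) : ℝ) * p ^ b ≤ (n : ℝ) ^ (b + 1) * p ^ b :=
            mul_le_mul_of_nonneg_right h13 (pow_nonneg hp0 _)
        _ = n * (n * p) ^ b := by rw [mul_pow]; ring
        _ ≤ n * (1 + n * p) ^ (2 * k) := by
          apply mul_le_mul_of_nonneg_left _ (by positivity)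
          calc ((n : ℝ) * p) ^ b ≤ (1 + n * p) ^ b :=
                pow_le_pow_left₀ hnp (by linarith) _
            _ ≤ (1 + n * p) ^ (2 * k) := pow_le_pow_right₀ (by linarith) (by omega)
    calc ((n.choose t : ℕ) : ℝ) * (2 ^ (8 * k ^ 2) * (p ^ (t - 1) * Z))
        = 2 ^ (8 * k ^ 2) * (((n.choose t : ℕ) : ℝ) * p ^ (t - 1)) * Z := by ring
      _ ≤ _ := by
        apply mul_le_mul_of_nonneg_right _ hZ0
        exact mul_le_mul_of_nonneg_left h12 (by positivity)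
  refine (sum_le_sum hmain).trans ?_
  rw [sum_const, nsmul_eq_mul, Nat.card_Icc]
  have h14 : ((2 * k - 1 + 1 - 1 : ℕ) : ℝ) ≤ 2 * k := by
    have : 2 * k - 1 + 1 - 1 ≤ 2 * k := by omega
    exact_mod_cast this
  have h15 : 0 ≤ (2 : ℝ) ^ (8 * k ^ 2) * (n * (1 + n * p) ^ (2 * k)) * Z := by
    have : 0 ≤ 1 + (n : ℝ) * p := by positivity
    positivity
  calc _ ≤ 2 * (k : ℝ) * (2 ^ (8 * k ^ 2) * (n * (1 + n * p) ^ (2 * k)) * Z) :=
        mul_le_mul_of_nonneg_right h14 h15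
    _ = _ := by ring

/-- If there is no cluster in `G` of vertices of degree at least `(X + 1) / 2`, all subgraphs are
choosable from lists of at least `X ≥ 6 k` colours. -/
theorem choosable_of (G H : SimpleGraph (Fin n)) (hH : H ≤ G) (k X : ℕ) (hk : 1 ≤ k)
    (hkX : 6 * k ≤ X)
    (hno : ¬ ∃ (W : Finset (Fin n)) (T : Finset (Sym2 (Fin n))), Piece G W T ∧
      W.card ≤ 2 * k - 1 ∧ k ≤ (W.filter fun v => ((X : ℝ) + 1) / 2 ≤ (dg G v : ℝ)).card)
    (D : ℕ) (hD : ∀ v, dg H v ≤ D) (hXD : X ≤ D) : Choosable H D := by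
  apply choosable_of_no_cluster H D k hD hk (by omega)
  rintro ⟨W, T, h1, h2, h3⟩
  apply hno
  refine ⟨W, T, h1.mono hH, h2, h3.trans (card_le_card ?_)⟩
  intro x hx
  rw [mem_filter] at hx ⊢
  refine ⟨hx.1, ?_⟩
  have h4 : D + 2 ≤ 2 * dg H x := hx.2
  have h6 : dg H x ≤ dg G x := dg_mono hH x
  have h5 : ((X : ℝ) + 2) ≤ 2 * dg G x := by exact_mod_cast (show X + 2 ≤ 2 * dg G x by omega)
  linarith

/-- The failure probability in `G(n,p)`. -/
theorem fail_gnp (p : ℝ) (hp0 : 0 ≤ p) (hp1 : p ≤ 1) (k X X' : ℕ) (hk : 1 ≤ k) (hkX : 6 * k ≤ X)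
    (s : ℝ) (hs : 0 ≤ s) (A : Finset (Fin n)) :
    gnp n p (fun G => ¬ ((∃ v, X' ≤ dg G v) ∧ ∀ H ≤ G, ∀ D : ℕ, (∀ v, dg H v ≤ D) → X ≤ D →
      Choosable H D)) ≤
      (1 - ((n - A.card).choose X' : ℝ) * (p ^ X' * (1 - p) ^ (n - A.card - X'))) ^ A.card +
      2 * k * 2 ^ (8 * k ^ 2) * (n * (1 + n * p) ^ (2 * k)) *
        Real.exp (-(k * (s * (((X : ℝ) + 1) / 2 - 2 * k))) + k * (p * n * (Real.exp s - 1))) := by
  have h1 := degree_bound p hp0 hp1 A X'
  have h2 := cluster_prob (n := n) p hp0 hp1 k hk (((X : ℝ) + 1) / 2) s hs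
  refine le_trans ?_ (add_le_add h1 h2)
  have h3 := gnp_union hp0 hp1 (univ : Finset Bool) (fun b (G : SimpleGraph (Fin n)) =>
    if b then (∀ v, dg G v < X') else ∃ (W : Finset (Fin n)) (T : Finset (Sym2 (Fin n))),
      Piece G W T ∧ W.card ≤ 2 * k - 1 ∧
        k ≤ (W.filter fun v => ((X : ℝ) + 1) / 2 ≤ (dg G v : ℝ)).card)
  rw [Fintype.sum_bool] at h3
  simp only [if_true, Bool.false_eq_true, if_false] at h3
  refine le_trans (gnp_imp hp0 hp1 ?_) h3
  intro G hG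
  by_contra hno
  apply hG
  refine ⟨?_, fun H hH D hD hXD => choosable_of G H hH k X hk hkX ?_ D hD hXD⟩
  · by_contra h4
    push Not at h4
    exact hno ⟨true, mem_univ _, by simpa using h4⟩
  · intro h4
    exact hno ⟨false, mem_univ _, by simpa using h4⟩

end Pool.Agent.Q127.LR
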