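import Pool.Agent.TH559.LE.Edges

set_option autoImplicit false
set_option linter.unusedSectionVars false

/-!
# Graphs without connected clusters of vertices of large degree
-/

namespace Pool.Agent.Q127.LR

open Finset Pool.Agent.TH559.LE
open scoped Classical

variable {V : Type} [Fintype V]

/-- `W` is a set of vertices with a set `T` of `|W| - 1` edges of `G` inside. -/
structure Piece (G : SimpleGraph V) (W : Finset V) (T : Finset (Sym2 V)) : Prop where
  card : T.card + 1 = W.card
  sub : ∀ e ∈ T, e ∈ G.edgeSet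
  ins : ∀ e ∈ T, ∀ x ∈ e, x ∈ W

theorem Piece.mono {G H : SimpleGraph V} (h : G ≤ H) {W : Finset V} {T : Finset (Sym2 V)}
    (hp : Piece G W T) : Piece H W T :=
  ⟨hp.card, fun e he => SimpleGraph.edgeSet_mono h (hp.sub e he), hp.ins⟩

theorem Piece.extend {G : SimpleGraph V} {W : Finset V} {T : Finset (Sym2 V)}
    (hp : Piece G W T) {a b : V} (ha : a ∈ W) (hb : b ∉ W) (hab : G.Adj a b) :
    Piece G (insert b W) (insert s(a, b) T) := by
  have hn : s(a, b) ∉ T := fun h => hb (hp.ins _ h b (Sym2.mem_mk_right a b))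
  refine ⟨?_, ?_, ?_⟩
  · rw [card_insert_of_notMem hn, card_insert_of_notMem hb, hp.card]
  · intro e he
    rcases mem_insert.1 he with rfl | he
    · exact hab
    · exact hp.sub e he
  · intro e he x hx
    rcases mem_insert.1 he with rfl | he
    · rcases Sym2.mem_iff.1 hx with rfl | rfl
      · exact mem_insert_of_mem ha
      · exact mem_insert_self _ _
    · exact mem_insert_of_mem (hp.ins e he x hx)

/-- The vertices with the property `P` that are reachable from `v`. -/
noncomputable def reach (A : SimpleGraph V) (P : V → Prop) (v : V) : Finset V :=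
  univ.filter fun x => P x ∧ A.Reachable v x

theorem mem_reach {A : SimpleGraph V} {P : V → Prop} {v x : V} :
    x ∈ reach A P v ↔ P x ∧ A.Reachable v x := by
  simp [reach]

theorem grow (A : SimpleGraph V) (P : V → Prop) (hP : ∀ x y, A.Adj x y → P x ∨ P y) (v : V)
    (hv : P v) : ∀ j : ℕ, 1 ≤ j → j ≤ (reach A P v).card →
    ∃ W T, Piece A W T ∧ v ∈ W ∧ W.card ≤ 2 * j - 1 ∧ j ≤ (W.filter P).card := by
  intro j hj
  induction j, hj using Nat.le_induction with
  | base =>
    intro _
    refine ⟨{v}, ∅, ⟨by simp, by simp, by simp⟩, by simp, by simp, ?_⟩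
    rw [Finset.one_le_card]
    exact ⟨v, by simp [hv]⟩
  | succ j hj ih =>
    intro hjc
    obtain ⟨W, T, hp, hvW, hc, hl⟩ := ih (by omega)
    by_cases hl' : j + 1 ≤ (W.filter P).card
    · exact ⟨W, T, hp, hvW, by omega, hl'⟩
    -- a good pair exists
    have hex : ∃ a ∈ W, ∃ b, b ∉ W ∧ P b ∧ (A.Adj a b ∨ ∃ w, A.Adj a w ∧ A.Adj w b) := by
      by_contra hno
      push Not at hno
      have hall : ∀ x, A.Reachable v x → (P x ∧ x ∈ W) ∨
          (¬ P x ∧ ∃ a ∈ W, P a ∧ A.Adj a x) := by
        intro x hx
        obtain ⟨q⟩ := hx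
        have key : ∀ (y z : V) (q : A.Walk y z), ((P y ∧ y ∈ W) ∨
          (¬ P y ∧ ∃ a ∈ W, P a ∧ A.Adj a y)) → ((P z ∧ z ∈ W) ∨
          (¬ P z ∧ ∃ a ∈ W, P a ∧ A.Adj a z)) := by
          intro y z q
          induction q with
          | nil => exact id
          | @cons y y' z hyy _ ih2 =>
            intro hy
            apply ih2
            rcases hy with ⟨hPy, hyW⟩ | ⟨hPy, a, haW, haP, hay⟩
            · by_cases hPy' : P y'
              · left
                refine ⟨hPy', ?_⟩
                by_contra hn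
                exact (hno y hyW y' hn hPy').1 hyy
              · right
                exact ⟨hPy', y, hyW, hPy, hyy⟩
            · have hPy' : P y' := (hP y y' hyy).resolve_left hPy
              left
              refine ⟨hPy', ?_⟩
              by_contra hn
              exact (hno a haW y' hn hPy').2 y hay hyy
        exact key v x q (Or.inl ⟨hv, hvW⟩)
      have hsub : reach A P v ⊆ W.filter P := by
        intro x hx
        rw [reach, mem_filter] at hx
        rcases hall x hx.2.2 with h | h
        · exact mem_filter.2 ⟨h.2, h.1⟩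
        · exact absurd hx.2.1 h.1
      have := card_le_card hsub
      omega
    obtain ⟨a, haW, b, hbW, hPb, hab⟩ := hex
    have hcount : ∀ W' : Finset V, W ⊆ W' → b ∈ W' → j + 1 ≤ (W'.filter P).card := by
      intro W' hsub hb
      have h1 : insert b (W.filter P) ⊆ W'.filter P := by
        intro x hx
        rcases mem_insert.1 hx with rfl | hx
        · exact mem_filter.2 ⟨hb, hPb⟩
        · exact mem_filter.2 ⟨hsub (mem_filter.1 hx).1, (mem_filter.1 hx).2⟩
      have h2 := card_le_card h1
      rw [card_insert_of_notMem (fun h => hbW (mem_filter.1 h).1)] at h2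
      omega
    rcases hab with hab | ⟨w, haw, hwb⟩
    · refine ⟨_, _, hp.extend haW hbW hab, mem_insert_of_mem hvW, ?_,
        hcount _ (subset_insert _ _) (mem_insert_self _ _)⟩
      rw [card_insert_of_notMem hbW]
      omega
    · by_cases hwW : w ∈ W
      · refine ⟨_, _, hp.extend hwW hbW hwb, mem_insert_of_mem hvW, ?_,
          hcount _ (subset_insert _ _) (mem_insert_self _ _)⟩
        rw [card_insert_of_notMem hbW]
        omega
      · have hb' : b ∉ insert w W := by
          rw [mem_insert]
          rintro (h | h)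
          · exact hwb.ne h.symm
          · exact hbW h
        refine ⟨_, _, (hp.extend haW hwW haw).extend (mem_insert_self w W) hb' hwb,
          mem_insert_of_mem (mem_insert_of_mem hvW), ?_,
          hcount _ ((subset_insert _ _).trans (subset_insert _ _)) (mem_insert_self _ _)⟩
        rw [card_insert_of_notMem hb', card_insert_of_notMem hwW]
        omega

/-- The number of edges of a component is at most `D` times the number of its large vertices. -/
theorem comp_edges (G : SimpleGraph V) (A : SimpleGraph V) (hA : A ≤ G) (D : ℕ)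
    (hD : ∀ v, dg G v ≤ D) (P : V → Prop) (hP : ∀ x y, A.Adj x y → P x ∨ P y) (v : V) :
    (comp A v).edgeSet.ncard ≤ (reach A P v).card * D := by
  have hsub : (comp A v).edgeSet ⊆
      (((reach A P v).biUnion fun x => univ.filter fun e => e ∈ A.edgeSet ∧ x ∈ e :
        Finset (Sym2 V)) : Set (Sym2 V)) := by
    intro e
    refine Sym2.ind (fun a b => ?_) e
    intro h
    have h1 : A.Adj a b ∧ A.Reachable v a := h
    rw [mem_coe, mem_biUnion]
    rcases hP a b h1.1 with h2 | h2
    · refine ⟨a, ?_, ?_⟩
      · rw [reach, mem_filter]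
        exact ⟨mem_univ _, h2, h1.2⟩
      · rw [mem_filter]
        exact ⟨mem_univ _, h1.1, Sym2.mem_mk_left a b⟩
    · refine ⟨b, ?_, ?_⟩
      · rw [reach, mem_filter]
        exact ⟨mem_univ _, h2, h1.2.trans h1.1.reachable⟩
      · rw [mem_filter]
        exact ⟨mem_univ _, h1.1, Sym2.mem_mk_right a b⟩
  refine (Set.ncard_le_ncard hsub (Finset.finite_toSet _)).trans ?_
  rw [Set.ncard_coe_finset]
  refine card_biUnion_le_card_mul _ _ _ ?_
  intro x _
  refine le_trans ?_ (hD x)
  rw [dg_eq]
  have h2 : (univ.filter fun e => e ∈ A.edgeSet ∧ x ∈ e : Finset (Sym2 V)) ⊆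
      (univ.filter fun y => G.Adj x y).image fun y => s(x, y) := by
    intro e he
    rw [mem_filter] at he
    obtain ⟨_, he1, he2⟩ := he
    obtain ⟨y, rfl⟩ := Sym2.mem_iff_exists.1 he2
    rw [mem_image]
    exact ⟨y, mem_filter.2 ⟨mem_univ _, hA he1⟩, rfl⟩
  exact (card_le_card h2).trans card_image_le

/-- The degree of `x` is large. -/
def Large (G : SimpleGraph V) (D : ℕ) (x : V) : Prop := D + 2 ≤ 2 * dg G x

theorem heavy_large (G : SimpleGraph V) (D : ℕ) (x y : V) (h : (heavy G D).Adj x y) :
    Large G D x ∨ Large G D y := by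
  have h1 : D + 2 ≤ dg G x + dg G y := h.2
  unfold Large
  omega

/-- A cluster: a connected set of at most `2 k - 1` vertices with at least `k` vertices of large
degree. -/
def Cluster (G : SimpleGraph V) (D k : ℕ) : Prop :=
  ∃ W T, Piece G W T ∧ W.card ≤ 2 * k - 1 ∧ k ≤ (W.filter (Large G D)).card

theorem reach_lt (G : SimpleGraph V) (D k : ℕ) (hk : 1 ≤ k) (hno : ¬ Cluster G D k) (v : V) :
    (reach (heavy G D) (Large G D) v).card < k := by
  by_contra hlt
  push Not at hlt
  obtain ⟨w, hw⟩ : (reach (heavy G D) (Large G D) v).Nonempty := by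
    rw [← Finset.card_pos]; omega
  have hw' := hw
  rw [reach, mem_filter] at hw
  have hsub : reach (heavy G D) (Large G D) v ⊆ reach (heavy G D) (Large G D) w := by
    intro x hx
    rw [reach, mem_filter] at hx ⊢
    exact ⟨mem_univ _, hx.2.1, hw.2.2.symm.trans hx.2.2⟩
  have hc := card_le_card hsub
  obtain ⟨W, T, hp, _, h1, h2⟩ := grow (heavy G D) (Large G D) (heavy_large G D) w hw.2.1 k hk
    (by omega)
  exact hno ⟨W, T, hp.mono (show heavy G D ≤ G from fun _ _ h => h.1), h1, h2⟩

theorem choosable_of_no_cluster (G : SimpleGraph V) (D k : ℕ) (hD : ∀ v, dg G v ≤ D)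
    (hk : 1 ≤ k) (hkD : 6 * k ≤ D) (hno : ¬ Cluster G D k) : Choosable G D := by
  apply of_cst' V G D hD
  intro v
  have h1 := comp_edges G (heavy G D) (fun _ _ h => h.1) D hD (Large G D) (heavy_large G D) v
  have h2 := reach_lt G D k hk hno v
  have h3 : (comp (heavy G D) v).edgeSet.ncard ≤ k * D :=
    h1.trans (Nat.mul_le_mul_right _ h2.le)
  have h4 : ((comp (heavy G D) v).edgeSet.ncard : ℝ) ≤ k * D := by exact_mod_cast h3
  have h5 : (13 / 72 : ℝ) ≤ cst D := cst_ge D
  have hk' : (1 : ℝ) ≤ k := by exact_mod_cast hk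
  have hkD' : 6 * (k : ℝ) ≤ D := by exact_mod_cast hkD
  refine lt_of_le_of_lt h4 (lt_of_lt_of_le ?_ (mul_le_mul_of_nonneg_right h5 (by positivity)))
  nlinarith

end Pool.Agent.Q127.LR
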