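import Pool.Agent.Q127.LR.Tail

set_option autoImplicit false

/-!
# Elementary estimates for large arguments
-/

namespace Pool.Agent.Q127.LR

open Real Filter

theorem ev_log (C C' c : ℝ) (hc : 0 < c) : ∀ᶠ L : ℝ in atTop, C + C' * log L ≤ c * L := by
  have h1 : (fun L : ℝ => C + C' * log L) =o[atTop] (fun L : ℝ => L) := by
    apply Asymptotics.IsLittleO.add
    · exact Asymptotics.isLittleO_const_id_atTop C
    · exact Real.isLittleO_log_id_atTop.const_mul_left C'
  have h2 := h1.bound hc
  filter_upwards [h2, eventually_ge_atTop 0] with L h3 h4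
  rw [Real.norm_eq_abs, Real.norm_eq_abs, abs_of_nonneg h4] at h3
  exact (le_abs_self _).trans h3

theorem ev_exp (C c : ℝ) (hc : 0 < c) : ∀ᶠ L : ℝ in atTop, C * L ^ 2 ≤ exp (c * L) := by
  have h1 := isLittleO_pow_exp_pos_mul_atTop 2 hc
  have h2 := (h1.const_mul_left C).bound (show (0 : ℝ) < 1 by norm_num)
  filter_upwards [h2] with L h3
  rw [Real.norm_eq_abs, Real.norm_eq_abs, abs_of_pos (exp_pos _), one_mul] at h3
  exact (le_abs_self _).trans h3

end Pool.Agent.Q127.LR
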