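import Pool.Agent.Q127.LR.Union

set_option autoImplicit false
set_option linter.unusedSectionVars false

/-!
# Random graphs with a given number of edges
-/

namespace Pool.Agent.Q127.LR

open Finset Pool.Agent.TH559.LE Pool.Agent.TH948.SH Pool.Agent.TH965.Spread Pool.Agent.TH965.Emb
open scoped Classical

theorem desc_le (m M r : ℕ) (hm : m ≤ M) :
    m.descFactorial r * M ^ r ≤ M.descFactorial r * m ^ r := by
  induction r with
  | zero => simp
  | succ r ih =>
    rw [Nat.descFactorial_succ, Nat.descFactorial_succ, pow_succ, pow_succ]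
    have h1 : (m - r) * M ≤ (M - r) * m := by
      rcases Nat.lt_or_ge m r with h | h
      · simp [Nat.sub_eq_zero_of_le h.le]
      · obtain ⟨a, rfl⟩ := Nat.exists_eq_add_of_le h
        obtain ⟨b, rfl⟩ := Nat.exists_eq_add_of_le hm
        have e1 : r + a - r = a := by omega
        have e2 : r + a + b - r = a + b := by omega
        rw [e1, e2]
        nlinarith
    calc (m - r) * m.descFactorial r * (M ^ r * M)
        = (m.descFactorial r * M ^ r) * ((m - r) * M) := by ring
      _ ≤ (M.descFactorial r * m ^ r) * ((M - r) * m) := Nat.mul_le_mul ih h1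
      _ = (M - r) * M.descFactorial r * (m ^ r * m) := by ring

theorem choose_ratio (m M r : ℕ) (hm : m ≤ M) (hr : r ≤ m) :
    (M - r).choose (m - r) * M ^ r ≤ M.choose m * m ^ r := by
  have h1 := Nat.choose_mul (n := M) (k := m) (s := r) hr
  have h2 : m.choose r * M ^ r ≤ M.choose r * m ^ r := by
    have h3 := desc_le m M r hm
    rw [Nat.descFactorial_eq_factorial_mul_choose, Nat.descFactorial_eq_factorial_mul_choose,
      mul_assoc, mul_assoc] at h3
    exact Nat.le_of_mul_le_mul_left h3 (Nat.factorial_pos r)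
  have h4 : 0 < M.choose r := Nat.choose_pos (hr.trans hm)
  apply Nat.le_of_mul_le_mul_left _ h4
  calc M.choose r * ((M - r).choose (m - r) * M ^ r)
      = (M.choose r * (M - r).choose (m - r)) * M ^ r := by ring
    _ = M.choose m * (m.choose r * M ^ r) := by rw [← h1]; ring
    _ ≤ M.choose m * (M.choose r * m ^ r) := Nat.mul_le_mul_left _ h2
    _ = M.choose r * (M.choose m * m ^ r) := by ring

variable {n : ℕ}

/-- The graphs with `m` edges and the property `P`. -/
noncomputable def gset (n m : ℕ) (P : SimpleGraph (Fin n) → Prop) : Finset (SimpleGraph (Fin n)) :=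
  univ.filter fun G : SimpleGraph (Fin n) => G.edgeSet.ncard = m ∧ P G

theorem mem_gset {m : ℕ} {P : SimpleGraph (Fin n) → Prop} {G : SimpleGraph (Fin n)} :
    G ∈ gset n m P ↔ G.edgeSet.ncard = m ∧ P G := by
  simp [gset]

/-- The number of the graphs with `m` edges and the property `P`. -/
noncomputable def cnt (n m : ℕ) (P : SimpleGraph (Fin n) → Prop) : ℕ := (gset n m P).card

theorem eF_card (G : SimpleGraph (Fin n)) : (eF G).card = G.edgeSet.ncard := by
  rw [← Set.ncard_coe_finset]
  congr 1
  ext e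
  simp [eF]

theorem eF_inj {G H : SimpleGraph (Fin n)} (h : eF G = eF H) : G = H := by
  apply SimpleGraph.edgeSet_injective
  ext e
  rw [← mem_eF, ← mem_eF, h]

theorem eF_top : (eF (⊤ : SimpleGraph (Fin n))).card = n.choose 2 := by
  have h := gnp_eq n 0 (fun _ => True)
  exact Pool.Agent.TH965.eF_top_card n

theorem eF_sub (G : SimpleGraph (Fin n)) : eF G ⊆ eF (⊤ : SimpleGraph (Fin n)) := by
  intro e he
  rw [mem_eF] at he ⊢
  exact SimpleGraph.edgeSet_mono le_top he

/-- Counting graphs with `m` edges which contain `T`. -/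
theorem cnt_present (m : ℕ) (T : Finset (Sym2 (Fin n))) (hT : ∀ e ∈ T, ¬ e.IsDiag)
    (_hTm : T.card ≤ m) :
    cnt n m (fun G => ∀ e ∈ T, e ∈ G.edgeSet) ≤ (n.choose 2 - T.card).choose (m - T.card) := by
  have hTs : T ⊆ eF (⊤ : SimpleGraph (Fin n)) := fun e he => mem_top_eF.2 (hT e he)
  unfold cnt
  rw [← eF_top, ← card_sdiff_of_subset hTs, ← card_powersetCard]
  apply card_le_card_of_injOn (fun G => eF G \ T)
  · intro G hG
    rw [mem_coe, mem_gset] at hG
    have hTG : T ⊆ eF G := fun e he => mem_eF.2 (hG.2 e he)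
    rw [mem_coe, mem_powersetCard]
    refine ⟨sdiff_subset_sdiff (eF_sub G) le_rfl, ?_⟩
    rw [card_sdiff_of_subset hTG, eF_card, hG.1]
  · intro G hG H hH h
    rw [mem_coe, mem_gset] at hG hH
    have h1 : T ⊆ eF G := fun e he => mem_eF.2 (hG.2 e he)
    have h2 : T ⊆ eF H := fun e he => mem_eF.2 (hH.2 e he)
    apply eF_inj
    simp only at h
    rw [← sdiff_union_of_subset h1, ← sdiff_union_of_subset h2, h]

theorem cnt_all (m : ℕ) : cnt n m (fun _ => True) = (n.choose 2).choose m := by
  unfold cnt
  rw [← eF_top, ← card_powersetCard]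
  apply card_bij (fun G _ => eF G)
  · intro G hG
    rw [mem_gset] at hG
    rw [mem_powersetCard]
    exact ⟨eF_sub G, by rw [eF_card, hG.1]⟩
  · intro G _ H _ h
    exact eF_inj h
  · intro S hS
    rw [mem_powersetCard] at hS
    have h1 : eF (SimpleGraph.fromEdgeSet (S : Set (Sym2 (Fin n)))) = S := by
      ext e
      rw [mem_eF]
      constructor
      · intro h
        rw [SimpleGraph.edgeSet_fromEdgeSet] at h
        exact h.1
      · intro h
        exact (mem_from (mem_top_eF.1 (hS.1 h))).2 h
    refine ⟨SimpleGraph.fromEdgeSet (S : Set (Sym2 (Fin n))), ?_, h1⟩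
    rw [mem_gset, ← eF_card, h1]
    exact ⟨hS.2, trivial⟩

/-- The uniform distribution on the graphs with `m` edges. -/
noncomputable def unif (n m : ℕ) (P : SimpleGraph (Fin n) → Prop) : ℝ :=
  (cnt n m P : ℝ) / ((n.choose 2).choose m : ℝ)

theorem model_unif (m : ℕ) (hm : m ≤ n.choose 2) :
    Model (unif n m) ((m : ℝ) / (n.choose 2 : ℕ)) := by
  have hc : (0 : ℝ) < ((n.choose 2).choose m : ℝ) := by exact_mod_cast Nat.choose_pos hm
  refine ⟨?_, ?_, ?_⟩
  · intro P Q h
    unfold unif cnt
    apply div_le_div_of_nonneg_right _ hc.le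
    exact_mod_cast card_le_card (s := gset n m P) (t := gset n m Q) fun G hG => by
      rw [mem_gset] at hG ⊢
      exact ⟨hG.1, h G hG.2⟩
  · intro ι s P
    unfold unif cnt
    rw [← sum_div]
    apply div_le_div_of_nonneg_right _ hc.le
    have h1 : gset n m (fun G => ∃ i ∈ s, P i G) ⊆ s.biUnion fun i => gset n m (P i) := by
      intro G hG
      rw [mem_gset] at hG
      obtain ⟨h2, i, hi, h3⟩ := hG
      rw [mem_biUnion]
      exact ⟨i, hi, mem_gset.2 ⟨h2, h3⟩⟩
    exact_mod_cast (card_le_card h1).trans card_biUnion_le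
  · intro T hT
    rcases Nat.lt_or_ge m T.card with hlt | hge
    · have h0 : cnt n m (fun G => ∀ e ∈ T, e ∈ G.edgeSet) = 0 := by
        unfold cnt
        rw [card_eq_zero, eq_empty_iff_forall_notMem]
        intro G hG
        obtain ⟨h1, h2⟩ := mem_gset.1 hG
        have h3 : T ⊆ eF G := fun e he => mem_eF.2 (h2 e he)
        have := card_le_card h3
        rw [eF_card, h1] at this
        omega
      unfold unif
      rw [h0, Nat.cast_zero, zero_div]
      positivity
    · have h1 := cnt_present m T hT hge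
      have h2 := choose_ratio m (n.choose 2) T.card hm hge
      unfold unif
      rw [div_pow, div_le_iff₀ hc]
      rcases Nat.eq_zero_or_pos (n.choose 2) with h0 | hpos
      · have hT0 : T.card = 0 := by omega
        rw [hT0] at h1 ⊢
        rw [pow_zero, pow_zero, div_one, one_mul]
        have : cnt n m (fun G => ∀ e ∈ T, e ∈ G.edgeSet) ≤ (n.choose 2).choose m := by
          simpa using h1
        exact_mod_cast this
      · have hM : (0 : ℝ) < ((n.choose 2 : ℕ) : ℝ) ^ T.card := by positivity
        rw [div_mul_eq_mul_div, le_div_iff₀ hM]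
        have h3 : cnt n m (fun G => ∀ e ∈ T, e ∈ G.edgeSet) * (n.choose 2) ^ T.card ≤
            m ^ T.card * (n.choose 2).choose m := by
          calc _ ≤ (n.choose 2 - T.card).choose (m - T.card) * (n.choose 2) ^ T.card :=
                Nat.mul_le_mul_right _ h1
            _ ≤ _ := h2.trans (by rw [mul_comm])
        exact_mod_cast h3

/-- The mode of the binomial distribution has probability at least `1 / (M + 1)`. -/
theorem mode_ge (M m : ℕ) (hm : m < M) :
    1 / ((M : ℝ) + 1) ≤ (M.choose m : ℝ) * (((m : ℝ) / M) ^ m * (1 - (m : ℝ) / M) ^ (M - m)) := by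
  have hM : (0 : ℝ) < M := by exact_mod_cast (show 0 < M by omega)
  set p : ℝ := (m : ℝ) / M with hp
  have hp0 : 0 ≤ p := by positivity
  have hp1 : p < 1 := by rw [hp, div_lt_one hM]; exact_mod_cast hm
  set t : ℕ → ℝ := fun j => (M.choose j : ℝ) * (p ^ j * (1 - p) ^ (M - j)) with ht
  have hsum : ∑ j ∈ range (M + 1), t j = 1 := by
    have h1 := add_pow p (1 - p) M
    rw [add_sub_cancel, one_pow] at h1
    rw [h1]
    apply sum_congr rfl
    intro j _
    simp only [ht]
    ring
  have htn : ∀ j, 0 ≤ t j := by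
    intro j
    have : 0 ≤ 1 - p := by linarith
    simp only [ht]
    positivity
  have hpM : p * M = m := by rw [hp]; field_simp
  have hstep : ∀ j, j < M → ((M : ℝ) - j) * p * t j = ((j : ℝ) + 1) * (1 - p) * t (j + 1) := by
    intro j hj
    have h1 : (M.choose (j + 1) : ℝ) * ((j : ℝ) + 1) = M.choose j * ((M : ℝ) - j) := by
      have h2 := Nat.choose_succ_right_eq M j
      have h3 : ((M.choose (j + 1) * (j + 1) : ℕ) : ℝ) = ((M.choose j * (M - j) : ℕ) : ℝ) := by
        rw [h2]
      rw [Nat.cast_mul, Nat.cast_mul, Nat.cast_sub hj.le] at h3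
      push_cast at h3
      exact h3
    have h4 : (1 - p) ^ (M - j) = (1 - p) ^ (M - (j + 1)) * (1 - p) := by
      rw [← pow_succ]
      congr 1
      omega
    simp only [ht]
    rw [h4, pow_succ p j]
    calc ((M : ℝ) - j) * p * (M.choose j * (p ^ j * ((1 - p) ^ (M - (j + 1)) * (1 - p))))
        = (M.choose j * ((M : ℝ) - j)) * (p * p ^ j * (1 - p) ^ (M - (j + 1)) * (1 - p)) := by ring
      _ = ((M.choose (j + 1) : ℝ) * ((j : ℝ) + 1)) *
          (p * p ^ j * (1 - p) ^ (M - (j + 1)) * (1 - p)) := by rw [h1]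
      _ = _ := by ring
  have hup : ∀ j, j < m → t j ≤ t (j + 1) := by
    intro j hj
    have hjm : (j : ℝ) + 1 ≤ m := by exact_mod_cast hj
    have hjM : (j : ℝ) + 1 ≤ M := hjm.trans (by exact_mod_cast hm.le)
    have hp' : 0 < p := by
      rw [hp]
      have : (0 : ℝ) < m := by
        have : (0 : ℝ) ≤ j := Nat.cast_nonneg j
        linarith
      positivity
    have hα : 0 < ((M : ℝ) - j) * p := mul_pos (by linarith) hp'
    have hαβ : ((j : ℝ) + 1) * (1 - p) ≤ ((M : ℝ) - j) * p := by nlinarith
    apply le_of_mul_le_mul_left _ hα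
    rw [hstep j (by omega)]
    exact mul_le_mul_of_nonneg_right hαβ (htn _)
  have hdown : ∀ j, m ≤ j → j < M → t (j + 1) ≤ t j := by
    intro j hj hjM
    have hjm : (m : ℝ) ≤ j := by exact_mod_cast hj
    have hmM : (m : ℝ) ≤ M := by exact_mod_cast hm.le
    have hβ : 0 < ((j : ℝ) + 1) * (1 - p) := mul_pos (by positivity) (by linarith)
    have hαβ : ((M : ℝ) - j) * p ≤ ((j : ℝ) + 1) * (1 - p) := by
      have h1 : ((M : ℝ) - j) * p = m - j * p := by rw [← hpM]; ring
      have h2 : ((j : ℝ) + 1) * (1 - p) = j + 1 - j * p - p := by ring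
      rw [h1, h2]
      linarith
    apply le_of_mul_le_mul_left _ hβ
    rw [← hstep j hjM]
    exact mul_le_mul_of_nonneg_right hαβ (htn _)
  have hle : ∀ j, j ≤ M → t j ≤ t m := by
    intro j hj
    rcases le_total j m with h | h
    · obtain ⟨d, hd⟩ := Nat.exists_eq_add_of_le h
      have key : ∀ d j, j + d = m → t j ≤ t m := by
        intro d
        induction d with
        | zero => intro j hj; rw [← hj, add_zero]
        | succ d ih =>
          intro j hj
          exact (hup j (by omega)).trans (ih (j + 1) (by omega))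
      exact key d j hd.symm
    · obtain ⟨d, hd⟩ := Nat.exists_eq_add_of_le h
      have key : ∀ d j, m + d = j → j ≤ M → t j ≤ t m := by
        intro d
        induction d with
        | zero => intro j hj _; rw [← hj, add_zero]
        | succ d ih =>
          intro j hj hjM
          have h1 := hdown (j - 1) (by omega) (by omega)
          rw [Nat.sub_add_cancel (by omega)] at h1
          exact h1.trans (ih (j - 1) (by omega) (by omega))
      exact key d j hd.symm hj
  have hfin : (1 : ℝ) ≤ (M + 1) * t m := by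
    calc (1 : ℝ) = ∑ j ∈ range (M + 1), t j := hsum.symm
      _ ≤ ∑ _j ∈ range (M + 1), t m :=
          sum_le_sum fun j hj => hle j (by rw [mem_range] at hj; omega)
      _ = (M + 1) * t m := by rw [sum_const, card_range, nsmul_eq_mul]; push_cast; ring
  rw [div_le_iff₀ (by positivity)]
  linarith

/-- The uniform distribution is bounded by the binomial distribution with the same mean. -/
theorem unif_le_gnp (m : ℕ) (hm : m < n.choose 2) (P : SimpleGraph (Fin n) → Prop) :
    unif n m P ≤ (((n.choose 2 : ℕ) : ℝ) + 1) * gnp n ((m : ℝ) / (n.choose 2 : ℕ)) P := by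
  set M := n.choose 2 with hM
  set p : ℝ := (m : ℝ) / M with hp
  have hM0 : (0 : ℝ) < M := by exact_mod_cast (show 0 < M by omega)
  have hp0 : 0 ≤ p := by positivity
  have hp1 : p ≤ 1 := by rw [hp, div_le_one hM0]; exact_mod_cast hm.le
  have h1 := mode_ge M m hm
  rw [← hp] at h1
  set w : ℝ := p ^ m * (1 - p) ^ (M - m) with hw
  have hc : (0 : ℝ) < (M.choose m : ℝ) := by exact_mod_cast Nat.choose_pos hm.le
  have hw0 : 0 ≤ w := mul_nonneg (pow_nonneg hp0 _) (pow_nonneg (by linarith) _)
  have h2 : (cnt n m P : ℝ) * w ≤ gnp n p P := by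
    have h3 : (cnt n m P : ℝ) * w = ∑ _G ∈ gset n m P, w := by
      rw [sum_const, nsmul_eq_mul]; rfl
    rw [h3]
    unfold gnp
    calc ∑ _G ∈ gset n m P, w = ∑ G ∈ gset n m P, (if P G then
          p ^ G.edgeSet.ncard * (1 - p) ^ (n.choose 2 - G.edgeSet.ncard) else 0) := by
          apply sum_congr rfl
          intro G hG
          rw [mem_gset] at hG
          rw [if_pos hG.2, hG.1, ← hM]
      _ ≤ _ := by
          apply sum_le_sum_of_subset_of_nonneg (subset_univ _)
          intro G _ _
          split_ifs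
          · exact w_nonneg hp0 hp1 _ _
          · exact le_rfl
  have h4 : 0 ≤ gnp n p P := gnp_nonneg hp0 hp1 P
  unfold unif
  rw [← hM, div_le_iff₀ hc]
  have h5 : (1 : ℝ) ≤ ((M : ℝ) + 1) * (M.choose m * w) := by
    rw [div_le_iff₀ (by positivity)] at h1
    linarith
  have hcn : (0 : ℝ) ≤ cnt n m P := Nat.cast_nonneg _
  calc (cnt n m P : ℝ) = cnt n m P * 1 := by ring
    _ ≤ cnt n m P * (((M : ℝ) + 1) * (M.choose m * w)) := mul_le_mul_of_nonneg_left h5 hcn
    _ = ((M : ℝ) + 1) * (cnt n m P * w) * M.choose m := by ring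
    _ ≤ ((M : ℝ) + 1) * gnp n p P * M.choose m := by
        apply mul_le_mul_of_nonneg_right _ hc.le
        exact mul_le_mul_of_nonneg_left h2 (by positivity)

end Pool.Agent.Q127.LR
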