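import Pool.Agent.Q127.LR.Main
import Pool.Agent.Q127.LR.Unif

set_option autoImplicit false
set_option linter.unusedSectionVars false

/-!
# The list edge-colouring conjecture for sparse random graphs
-/

namespace Pool.Agent.Q127.LR

open Finset Pool.Agent.TH559.LE Pool.Agent.TH948.SH Pool.Agent.TH965.Spread Pool.Agent.TH965.Emb
open Real Filter
open scoped Classical

theorem tendsto_logn : Tendsto (fun n : ℕ => log (n : ℝ)) atTop atTop :=
  tendsto_log_atTop.comp tendsto_natCast_atTop_atTop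

theorem sparse_small (δ ε : ℝ) (hδ : 0 < δ) (hε : 0 < ε) : ∃ N : ℕ, ∀ n : ℕ, N ≤ n →
    ∀ (μ : (SimpleGraph (Fin n) → Prop) → ℝ) (q : ℝ), Model μ q → 0 ≤ q →
      n * q ≤ exp (-(δ * log n)) → ∀ ε' l : ℝ, μ (fun G => ¬ Fine ε' l G) ≤ ε := by
  obtain ⟨t, ht⟩ := exists_nat_gt (1 + 2 / δ)
  have h2δ : 0 < 2 / δ := by positivity
  have ht1 : 1 ≤ t := by
    have : (1 : ℝ) < t := by linarith
    exact_mod_cast this.le
  have htδ : 2 ≤ δ * (t - 1) := by
    have : 2 / δ < t - 1 := by linarith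
    rw [div_lt_iff₀ hδ] at this
    linarith
  set C : ℝ := 2 * t * 2 ^ (4 * t ^ 2) with hC
  have hC0 : 0 < C := by
    have : (0 : ℝ) < t := by exact_mod_cast ht1
    positivity
  have hlim : Tendsto (fun L : ℝ => C * (exp (-(δ * L)) + exp (-L))) atTop (nhds (C * (0 + 0))) := by
    apply Tendsto.const_mul
    apply Tendsto.add
    · exact tendsto_exp_neg_atTop_nhds_zero.comp (tendsto_id.const_mul_atTop hδ)
    · exact tendsto_exp_neg_atTop_nhds_zero
  rw [add_zero, mul_zero] at hlim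
  have hev : ∀ᶠ n : ℕ in atTop, C * (exp (-(δ * log (n : ℝ))) + exp (-log (n : ℝ))) < ε :=
    tendsto_logn.eventually (hlim.eventually (gt_mem_nhds hε))
  obtain ⟨N, hN⟩ := eventually_atTop.1 hev
  refine ⟨max N 1, fun n hn μ q hM hq hnq ε' l => ?_⟩
  have hn1 : 1 ≤ n := (le_max_right _ _).trans hn
  have hn0 : (0 : ℝ) < n := by exact_mod_cast hn1
  have h1 := hN n ((le_max_left _ _).trans hn)
  set L := log (n : ℝ) with hL
  have hL0 : 0 ≤ L := log_nonneg (by exact_mod_cast hn1)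
  have heL : exp L = n := exp_log hn0
  have hnq0 : 0 ≤ (n : ℝ) * q := by positivity
  have hnq1 : (n : ℝ) * q ≤ 1 := by
    refine hnq.trans ?_
    rw [exp_le_one_iff]
    have := mul_nonneg hδ.le hL0
    linarith
  refine (hM.sparse hq hnq1 t ht1 ε' l).trans ?_
  have h2 : (n : ℝ) * (n * q) ^ (t - 1) ≤ exp (-L) := by
    calc (n : ℝ) * (n * q) ^ (t - 1) ≤ n * exp (-(δ * L)) ^ (t - 1) := by
          apply mul_le_mul_of_nonneg_left _ hn0.le
          exact pow_le_pow_left₀ hnq0 hnq _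
      _ = exp (L - (δ * (t - 1)) * L) := by
          rw [← exp_nat_mul, ← heL, ← exp_add]
          congr 1
          rw [Nat.cast_sub ht1]
          push_cast
          ring
      _ ≤ exp (-L) := by
          apply exp_le_exp.2
          nlinarith
  have h3 : C * (n * q + n * (n * q) ^ (t - 1)) ≤ C * (exp (-(δ * L)) + exp (-L)) :=
    mul_le_mul_of_nonneg_left (add_le_add hnq h2) hC0.le
  linarith

/-- The list edge-colouring conjecture holds for `G` and for all subgraphs `H` of `G` with a vertex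
of degree at least `(2 + ε) a` and at least `ε` times the maximum degree of `G`; and for these
graphs lists of maximum degree size suffice. -/
def Good {n : ℕ} (ε a : ℝ) (G : SimpleGraph (Fin n)) : Prop :=
  ∀ H : SimpleGraph (Fin n), H ≤ G →
    (H = G ∨ ∃ v, (2 + ε) * a ≤ dg H v ∧ ∀ w, ε * dg G w ≤ dg H v) →
    (∀ k : ℕ, H.lineGraph.Colorable k ↔ Choosable H k) ∧
    ∀ L : H.edgeSet → Finset ℕ, (∀ e v, dg H v ≤ (L e).card) →
      ∃ f : H.edgeSet → ℕ, (∀ e, f e ∈ L e) ∧ ∀ e e', H.lineGraph.Adj e e' → f e ≠ f e'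

theorem Fine.good {n : ℕ} {ε l ε' a : ℝ} (hn : 1 ≤ n) {G : SimpleGraph (Fin n)} (h : Fine ε' l G)
    (hε : ε' ≤ ε) (hl : (2 + ε') * l ≤ (2 + ε) * a) : Good ε a G := by
  intro H hH hv
  obtain ⟨x, -, hx⟩ := exists_max_image (univ : Finset (Fin n)) (dg H) ⟨⟨0, by omega⟩, mem_univ _⟩
  have hch : Choosable H (dg H x) := by
    refine h H hH _ (fun w => hx w (mem_univ _)) ?_
    rcases hv with h1 | ⟨v, h2, h1⟩
    · exact Or.inl h1
    · have h3 : (dg H v : ℝ) ≤ dg H x := by exact_mod_cast hx v (mem_univ _)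
      refine Or.inr ⟨fun w => ?_, hl.trans (h2.trans h3)⟩
      refine le_trans ?_ ((h1 w).trans h3)
      exact mul_le_mul_of_nonneg_right hε (Nat.cast_nonneg _)
  exact ⟨fun k => lecc H (dg H x) hch x rfl k, fun L hL => hch L fun e => hL e x⟩

theorem Good.weaken {n : ℕ} {ε ε' a : ℝ} (ha : 0 ≤ a) {G : SimpleGraph (Fin n)} (h : Good ε' a G)
    (hε : ε' ≤ ε) : Good ε a G := by
  intro H hH hv
  apply h H hH
  rcases hv with h1 | ⟨v, h2, h1⟩
  · exact Or.inl h1
  · refine Or.inr ⟨v, le_trans ?_ h2, fun w => le_trans ?_ (h1 w)⟩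
    · exact mul_le_mul_of_nonneg_right (by linarith) ha
    · exact mul_le_mul_of_nonneg_right hε (Nat.cast_nonneg _)

/-- The failure probability tends to zero in `G(n,p)`. -/
theorem main_gnp (ε : ℝ) (hε : 0 < ε) (hε1 : ε ≤ 1) : ∃ N : ℕ, ∀ n : ℕ, N ≤ n → ∀ p : ℝ,
    0 ≤ p → n * p * hh 2 ≤ (1 - ε) * log n →
    1 ≤ n ∧ p ≤ 1 ∧ gnp n p (fun G => ¬ Fine ε (n * p) G) ≤ ε := by
  obtain ⟨δ, hδ, N1, hN1⟩ := main_dense ε hε hε1
  obtain ⟨N2, hN2⟩ := sparse_small δ ε hδ hε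
  have hev : ∀ᶠ n : ℕ in atTop, exp (-log (n : ℝ)) < ε :=
    (tendsto_exp_neg_atTop_nhds_zero.comp tendsto_logn).eventually (gt_mem_nhds hε)
  obtain ⟨N3, hN3⟩ := eventually_atTop.1 hev
  have hev4 : ∀ᶠ n : ℕ in atTop, log (n : ℝ) < 0.386 * n := by
    filter_upwards [tendsto_logn.eventually (ev_exp 3 1 one_pos),
      tendsto_logn.eventually_ge_atTop 8, eventually_ge_atTop 1] with n h1 h2 h3
    have h4 : exp (1 * log (n : ℝ)) = n := by
      rw [one_mul, exp_log (by exact_mod_cast h3)]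
    rw [h4] at h1
    nlinarith
  obtain ⟨N4, hN4⟩ := eventually_atTop.1 hev4
  refine ⟨max (max N1 N2) (max (max N3 1) N4), fun n hn p hp0 hp => ?_⟩
  have hn1 : 1 ≤ n :=
    (le_max_right _ _).trans ((le_max_left _ _).trans ((le_max_right _ _).trans hn))
  have hn0 : (0 : ℝ) < n := by exact_mod_cast hn1
  have hL0 : 0 ≤ log (n : ℝ) := log_nonneg (by exact_mod_cast hn1)
  have hp1 : p ≤ 1 := by
    by_contra hcon
    push Not at hcon
    have h5 := hN4 n ((le_max_right _ _).trans ((le_max_right _ _).trans hn))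
    have h6 := h2_lower
    have h7 : log (n : ℝ) < 0.386 * n := h5
    have h8 : (n : ℝ) * 0.386 ≤ n * p * hh 2 := by
      have h9 : (n : ℝ) * 1 ≤ n * p := mul_le_mul_of_nonneg_left hcon.le hn0.le
      nlinarith
    have h9 : (1 - ε) * log (n : ℝ) ≤ 1 * log (n : ℝ) :=
      mul_le_mul_of_nonneg_right (by linarith) hL0
    linarith
  refine ⟨hn1, hp1, ?_⟩
  rcases le_total (exp (-(δ * log n))) (n * p) with h | h
  · refine (hN1 n ((le_max_left _ _).trans ((le_max_left _ _).trans hn)) p hp0 h hp).trans ?_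
    refine le_trans ?_ (hN3 n ((le_max_left _ _).trans ((le_max_left _ _).trans
      ((le_max_right _ _).trans hn)))).le
    apply exp_le_exp.2
    linarith
  · exact hN2 n ((le_max_right _ _).trans ((le_max_left _ _).trans hn)) _ p
      (model_gnp p hp0 hp1) hp0 h ε (n * p)

/-- The fraction of the bad graphs with `m` edges tends to zero. -/
theorem main_gnm (ε : ℝ) (hε : 0 < ε) (hε1 : ε ≤ 1) : ∃ N : ℕ, ∀ n : ℕ, N ≤ n → ∀ m : ℕ,
    2 * m * hh 2 ≤ (1 - ε) * (n * log n) →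
    m ≤ n.choose 2 ∧ unif n m (fun G => ¬ Good ε (2 * m / n) G) ≤ ε := by
  obtain ⟨δ, hδ, N1, hN1⟩ := main_dense (ε / 2) (by positivity) (by linarith)
  obtain ⟨N2, hN2⟩ := sparse_small δ ε hδ hε
  have hev : ∀ᶠ n : ℕ in atTop, exp (-log (n : ℝ)) < ε :=
    (tendsto_exp_neg_atTop_nhds_zero.comp tendsto_logn).eventually (gt_mem_nhds hε)
  obtain ⟨N3, hN3⟩ := eventually_atTop.1 hev
  obtain ⟨N4, hN4⟩ := exists_nat_gt (6 / ε)
  have hev5 : ∀ᶠ n : ℕ in atTop, 2.6 * (log (n : ℝ)) ^ 2 ≤ exp (1 * log (n : ℝ)) :=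
    tendsto_logn.eventually (ev_exp 2.6 1 one_pos)
  have hev6 : ∀ᶠ n : ℕ in atTop, 8 ≤ log (n : ℝ) := tendsto_logn.eventually_ge_atTop 8
  obtain ⟨N5, hN5⟩ := eventually_atTop.1 (hev5.and hev6)
  refine ⟨max (max (max N1 N2) (max N3 1)) (max N4 N5), fun n hn m hm => ?_⟩
  have hnA : max (max N1 N2) (max N3 1) ≤ n := (le_max_left _ _).trans hn
  have hnB : max N4 N5 ≤ n := (le_max_right _ _).trans hn
  have hn1 : 1 ≤ n := (le_max_right _ _).trans ((le_max_right _ _).trans hnA)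
  have hn0 : (0 : ℝ) < n := by exact_mod_cast hn1
  obtain ⟨h5, h8⟩ := hN5 n ((le_max_right _ _).trans hnB)
  have h4 : 6 / ε < n := hN4.trans_le (by exact_mod_cast (le_max_left _ _).trans hnB)
  have h3 := hN3 n ((le_max_left _ _).trans ((le_max_right _ _).trans hnA))
  set L := log (n : ℝ) with hL
  have heL : exp L = n := exp_log hn0
  rw [one_mul, heL] at h5
  have h2n : 6 < ε * n := by
    rw [div_lt_iff₀ hε] at h4
    linarith
  have hh2 := h2_lower
  have hm0 : (0 : ℝ) ≤ m := Nat.cast_nonneg m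
  -- the number of pairs
  have hMr : ((n.choose 2 : ℕ) : ℝ) = n * (n - 1) / 2 := Nat.cast_choose_two ℝ n
  have hnbig : 2 < (n : ℝ) := by nlinarith
  have hn10 : 0 < (n : ℝ) - 1 := by linarith
  have hL26 : 2 * (m : ℝ) ≤ 2.6 * (n * L) := by
    have h6 : 2 * (m : ℝ) * 0.386 ≤ 2 * m * hh 2 := mul_le_mul_of_nonneg_left hh2.le (by positivity)
    have h7 : (1 - ε) * (n * L) ≤ 1 * (n * L) :=
      mul_le_mul_of_nonneg_right (by linarith) (by positivity)
    nlinarith
  have hLn : 2.6 * L + 1 < n := by nlinarith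
  have hmM : m < n.choose 2 := by
    have h6 : (m : ℝ) < ((n.choose 2 : ℕ) : ℝ) := by
      rw [hMr]
      have : (n : ℝ) * (2.6 * L) < n * (n - 1) := mul_lt_mul_of_pos_left (by linarith) hn0
      nlinarith
    exact_mod_cast h6
  have hM0 : (0 : ℝ) < ((n.choose 2 : ℕ) : ℝ) := by rw [hMr]; positivity
  set q : ℝ := (m : ℝ) / (n.choose 2 : ℕ) with hq
  have hq0 : 0 ≤ q := by positivity
  have hnq : (n : ℝ) * q = 2 * m / (n - 1) := by
    rw [hq, hMr]
    field_simp
  refine ⟨hmM.le, ?_⟩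
  have hmodel := model_unif m hmM.le
  have hcmp : ∀ G : SimpleGraph (Fin n), ¬ Good ε (2 * m / n) G → ¬ Fine (ε / 2) (n * q) G := by
    intro G hG hF
    apply hG
    refine Fine.good hn1 hF (by linarith) ?_
    rw [hnq, mul_div_assoc', mul_div_assoc', div_le_div_iff₀ hn10 hn0]
    have h6 : (2 + ε / 2) * n ≤ (2 + ε) * (n - 1) := by nlinarith
    have h7 := mul_le_mul_of_nonneg_left h6 (show 0 ≤ 2 * (m : ℝ) by positivity)
    linarith
  refine (hmodel.mono _ _ hcmp).trans ?_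
  rcases le_total (exp (-(δ * L))) (n * q) with h | h
  · have h6 : (n : ℝ) * q * hh 2 ≤ (1 - ε / 2) * L := by
      rw [hnq, div_mul_eq_mul_div, div_le_iff₀ hn10]
      refine hm.trans ?_
      have h7 : (1 - ε) * n ≤ (1 - ε / 2) * (n - 1) := by nlinarith
      have := mul_le_mul_of_nonneg_right h7 (show 0 ≤ L by linarith)
      linarith
    have h7 := hN1 n ((le_max_left _ _).trans ((le_max_left _ _).trans hnA)) q hq0 h h6
    refine (unif_le_gnp m hmM _).trans ?_
    have h8' : ((n.choose 2 : ℕ) : ℝ) + 1 ≤ n ^ 2 := by rw [hMr]; nlinarith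
    calc (((n.choose 2 : ℕ) : ℝ) + 1) * gnp n q _ ≤ n ^ 2 * exp (-(3 * L)) :=
          mul_le_mul h8' h7 (gnp_nonneg hq0 (by rw [hq, div_le_one hM0]; exact_mod_cast hmM.le) _)
            (by positivity)
      _ = exp (-L) := by
          rw [← heL, ← exp_nat_mul, ← exp_add]
          congr 1
          push_cast
          ring
      _ ≤ ε := h3.le
  · exact hN2 n ((le_max_right _ _).trans ((le_max_left _ _).trans hnA)) _ q
      hmodel hq0 h _ _

theorem hh_two : hh 2 = 2 * log 2 - 1 := by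
  unfold hh
  ring

theorem final (ε : ℝ) (hε : 0 < ε) : ∃ N : ℕ, ∀ n : ℕ, N ≤ n →
    (∀ p : ℝ, 0 ≤ p → n * p * (2 * log 2 - 1) ≤ (1 - ε) * log n →
      p ≤ 1 ∧ 1 - ε ≤ gnp n p (fun G => Good ε (n * p) G)) ∧
    ∀ m : ℕ, 2 * m / n * (2 * log 2 - 1) ≤ (1 - ε) * log n →
      m ≤ n.choose 2 ∧
      ({G : SimpleGraph (Fin n) | G.edgeSet.ncard = m ∧ ¬ Good ε (2 * m / n) G}.ncard : ℝ) ≤
        ε * {G : SimpleGraph (Fin n) | G.edgeSet.ncard = m}.ncard := by
  have h0 : 0 < min ε 1 := lt_min hε one_pos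
  obtain ⟨N1, h1⟩ := main_gnp (min ε 1) h0 (min_le_right _ _)
  obtain ⟨N2, h2⟩ := main_gnm (min ε 1) h0 (min_le_right _ _)
  refine ⟨max (max N1 N2) 1, fun n hn => ?_⟩
  have hn1 : 1 ≤ n := (le_max_right _ _).trans hn
  have hn0 : (0 : ℝ) < n := by exact_mod_cast hn1
  have hL0 : 0 ≤ log (n : ℝ) := log_nonneg (by exact_mod_cast hn1)
  have hmin : min ε 1 ≤ ε := min_le_left _ _
  have hL : (1 - ε) * log (n : ℝ) ≤ (1 - min ε 1) * log n :=
    mul_le_mul_of_nonneg_right (by linarith) hL0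
  refine ⟨fun p hp0 hp => ?_, fun m hm => ?_⟩
  · rw [← hh_two] at hp
    obtain ⟨-, hp1, h3⟩ := h1 n ((le_max_left _ _).trans ((le_max_left _ _).trans hn)) p hp0
      (hp.trans hL)
    refine ⟨hp1, ?_⟩
    have ha : 0 ≤ (n : ℝ) * p := by positivity
    have h4 : gnp n p (fun G => ¬ Good ε (n * p) G) ≤
        gnp n p (fun G => ¬ Fine (min ε 1) (n * p) G) :=
      gnp_imp hp0 hp1 fun G hG hF =>
        hG (Fine.good hn1 hF hmin (mul_le_mul_of_nonneg_right (by linarith) ha))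
    rw [gnp_not] at h4
    linarith
  · have hm' : 2 * (m : ℝ) * hh 2 ≤ (1 - min ε 1) * (n * log n) := by
      have h3 := mul_le_mul_of_nonneg_left (hm.trans hL) hn0.le
      rw [hh_two]
      have h4 : (n : ℝ) * (2 * m / n * (2 * log 2 - 1)) = 2 * m * (2 * log 2 - 1) := by
        field_simp
      rw [h4] at h3
      linarith
    obtain ⟨hmM, h3⟩ := h2 n ((le_max_right _ _).trans ((le_max_left _ _).trans hn)) m hm'
    refine ⟨hmM, ?_⟩
    have hc : (0 : ℝ) < ((n.choose 2).choose m : ℝ) := by exact_mod_cast Nat.choose_pos hmM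
    unfold unif at h3
    rw [div_le_iff₀ hc, ← cnt_all] at h3
    have e1 : ({G : SimpleGraph (Fin n) | G.edgeSet.ncard = m}.ncard : ℝ) =
        cnt n m (fun _ => True) := by
      unfold cnt
      rw [← Set.ncard_coe_finset]
      congr 2
      ext G
      rw [mem_coe, mem_gset]
      exact ⟨fun h => ⟨h, trivial⟩, fun h => h.1⟩
    have e2 : {G : SimpleGraph (Fin n) | G.edgeSet.ncard = m ∧ ¬ Good ε (2 * m / n) G}.ncard ≤
        cnt n m (fun G => ¬ Good (min ε 1) (2 * m / n) G) := by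
      unfold cnt
      rw [← Set.ncard_coe_finset]
      apply Set.ncard_le_ncard _ (finite_toSet _)
      intro G hG
      rw [mem_coe, mem_gset]
      refine ⟨hG.1, fun h => hG.2 (h.weaken (by positivity) hmin)⟩
    rw [e1]
    have e3 : (({G : SimpleGraph (Fin n) | G.edgeSet.ncard = m ∧
        ¬ Good ε (2 * m / n) G}.ncard : ℕ) : ℝ) ≤
        (cnt n m (fun G => ¬ Good (min ε 1) (2 * m / n) G) : ℝ) := by exact_mod_cast e2
    exact e3.trans (h3.trans (mul_le_mul_of_nonneg_right hmin (Nat.cast_nonneg _)))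

end Pool.Agent.Q127.LR
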