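import Pool.Agent.Q127.LR.Det

set_option autoImplicit false
set_option linter.unusedSectionVars false

/-!
# Very sparse graphs
-/

namespace Pool.Agent.Q127.LR

open Finset Pool.Agent.TH559.LE
open scoped Classical

variable {V : Type} [Fintype V]

/-- A set of fewer than `t` vertices that spans at least as many edges as it has vertices. -/
def Dense (G : SimpleGraph V) (t : ℕ) : Prop :=
  ∃ (W : Finset V) (T : Finset (Sym2 V)), W.Nonempty ∧ W.card < t ∧ T.card = W.card ∧
    (∀ e ∈ T, e ∈ G.edgeSet) ∧ ∀ e ∈ T, ∀ x ∈ e, x ∈ W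

/-- A connected set of at least `t` and at most `2 t - 1` vertices. -/
def Big (G : SimpleGraph V) (t : ℕ) : Prop :=
  ∃ W T, Piece G W T ∧ t ≤ W.card ∧ W.card ≤ 2 * t - 1

theorem leaf (G : SimpleGraph V) (t : ℕ) (ht : 1 ≤ t) (h1 : ¬ Dense G t) (h2 : ¬ Big G t)
    (H : SimpleGraph V) (hH : H ≤ G) (hne : H ≠ ⊥) : ∃ u v, H.Adj u v ∧ dg H u = 1 := by
  by_contra hno
  push Not at hno
  obtain ⟨u, v, huv⟩ := SimpleGraph.ne_bot_iff_exists_adj.1 hne
  have hpos : ∀ x y, H.Adj x y → 2 ≤ dg H x := by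
    intro x y hxy
    have h3 : dg H x ≠ 1 := hno x y hxy
    have h4 : 0 < dg H x := by
      rw [dg_eq, card_pos]
      exact ⟨y, by simp [hxy]⟩
    omega
  set S := reach H (fun _ => True) u with hS
  by_cases hc : t ≤ S.card
  · obtain ⟨W, T, hp, _, h3, h4⟩ := grow H (fun _ => True) (fun _ _ _ => Or.inl trivial) u trivial
      t ht hc
    exact h2 ⟨W, T, hp.mono hH, by simpa using h4, h3⟩
  · push Not at hc
    have huS : u ∈ S := by rw [hS, mem_reach]; exact ⟨trivial, .refl _⟩
    have hdeg : ∀ x ∈ S, 2 ≤ (comp H u).degree x := by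
      intro x hx
      rw [hS, mem_reach] at hx
      have h5 : (comp H u).degree x = dg H x := by
        rw [dg_eq, ← SimpleGraph.card_neighborFinset_eq_degree]
        congr 1
        ext y
        rw [SimpleGraph.mem_neighborFinset, mem_filter]
        exact ⟨fun h => ⟨mem_univ _, h.1⟩, fun h => ⟨h.2, hx.2⟩⟩
      rw [h5]
      by_cases hxu : x = u
      · rw [hxu]; exact hpos u v huv
      · obtain ⟨q⟩ := hx.2.symm
        cases q with
        | nil => exact absurd rfl hxu
        | cons h _ => exact hpos _ _ h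
    have hsum := (comp H u).sum_degrees_eq_twice_card_edges
    have h6 : 2 * S.card ≤ 2 * (comp H u).edgeFinset.card := by
      rw [← hsum]
      calc 2 * S.card = ∑ _x ∈ S, 2 := by rw [sum_const, smul_eq_mul, mul_comm]
        _ ≤ ∑ x ∈ S, (comp H u).degree x := sum_le_sum hdeg
        _ ≤ ∑ x, (comp H u).degree x :=
            sum_le_sum_of_subset_of_nonneg (subset_univ _) (fun _ _ _ => Nat.zero_le _)
    have h7 : S.card ≤ (comp H u).edgeFinset.card := by omega
    obtain ⟨T, hT, hTc⟩ := exists_subset_card_eq h7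
    refine h1 ⟨S, T, ⟨u, huS⟩, hc, hTc, ?_, ?_⟩
    · intro e he
      have := hT he
      rw [SimpleGraph.mem_edgeFinset] at this
      exact SimpleGraph.edgeSet_mono hH (SimpleGraph.edgeSet_mono (comp_le H u) this)
    · intro e he x hx
      have h8 := hT he
      rw [SimpleGraph.mem_edgeFinset] at h8
      obtain ⟨y, rfl⟩ := Sym2.mem_iff_exists.1 hx
      have h9 : (comp H u).Adj x y := h8
      rw [hS, mem_reach]
      exact ⟨trivial, h9.2⟩

theorem choosable_bot (D : ℕ) : Choosable (⊥ : SimpleGraph V) D := by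
  intro L _
  refine ⟨fun _ => 0, ?_, ?_⟩
  · rintro ⟨e, he⟩
    simp at he
  · rintro ⟨e, he⟩
    simp at he

theorem choosable_of_leaf (G : SimpleGraph V) (D : ℕ) (hD : ∀ v, dg G v ≤ D)
    (hl : ∀ H : SimpleGraph V, H ≤ G → H ≠ ⊥ → ∃ u v, H.Adj u v ∧ dg H u = 1) :
    Choosable G D := by
  have key : ∀ (m : ℕ) (H : SimpleGraph V), H ≤ G → H.edgeSet.ncard = m → Choosable H D := by
    intro m
    induction m using Nat.strong_induction_on with
    | _ m ih =>
      intro H hH hm
      by_cases hne : H = ⊥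
      · rw [hne]; exact choosable_bot D
      obtain ⟨u, v, huv, hu⟩ := hl H hH hne
      apply choosable_of_heavy
      refine ih _ ?_ (heavy H D) ((show heavy H D ≤ H from fun _ _ h => h.1).trans hH) rfl
      rw [← hm]
      apply Set.ncard_lt_ncard _ (Set.toFinite _)
      refine ⟨SimpleGraph.edgeSet_mono (show heavy H D ≤ H from fun _ _ h => h.1), ?_⟩
      intro hsub
      have h1 : s(u, v) ∈ (heavy H D).edgeSet := hsub huv
      have h2 : D + 2 ≤ dg H u + dg H v := h1.2
      have h3 : dg H v ≤ D := (dg_mono hH v).trans (hD v)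
      omega
  exact key _ G le_rfl rfl

/-- `G` and those subgraphs `H` of `G` whose maximum degree is at least `(2 + ε) l` and at least `ε`
times the maximum degree of `G` are edge-choosable from lists of maximum degree size. -/
def Fine (ε l : ℝ) (G : SimpleGraph V) : Prop :=
  ∀ H : SimpleGraph V, H ≤ G → ∀ D : ℕ, (∀ v, dg H v ≤ D) →
    (H = G ∨ ((∀ v, ε * dg G v ≤ D) ∧ (2 + ε) * l ≤ D)) → Choosable H D

theorem fine_sparse (ε l : ℝ) (G : SimpleGraph V) (t : ℕ) (ht : 1 ≤ t)
    (h1 : ¬ Dense G t) (h2 : ¬ Big G t) : Fine ε l G :=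
  fun H hH D hD _ => choosable_of_leaf H D hD (fun H' hH' => leaf G t ht h1 h2 H' (hH'.trans hH))

end Pool.Agent.Q127.LR
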