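import Pool.Agent.Q127.LR.Clus
import Pool.Agent.Q127.LR.Ev

set_option autoImplicit false
set_option linter.unusedSectionVars false

/-!
# The failure probability for sparse random graphs which are not very sparse
-/

namespace Pool.Agent.Q127.LR

open Finset Pool.Agent.TH559.LE Pool.Agent.TH948.SH Pool.Agent.TH965.Spread Pool.Agent.TH965.Emb
open Real Filter
open scoped Classical

theorem binom_le_one {n : ℕ} (A : Finset (Fin n)) (X : ℕ) (p : ℝ) (hp0 : 0 ≤ p) (hp1 : p ≤ 1) :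
    ((n - A.card).choose X : ℝ) * (p ^ X * (1 - p) ^ (n - A.card - X)) ≤ 1 := by
  have h := exs_card (Aᶜ) p X
  rw [card_compl, Fintype.card_fin] at h
  rw [← h]
  calc exs (Aᶜ) p (fun W => if W.card = X then 1 else 0) ≤ exs (Aᶜ) p (fun _ => (1 : ℝ)) := by
        apply exs_mono _ hp0 hp1
        intro W _
        split_ifs <;> norm_num
    _ = 1 := exs_const _ p 1

/-- The inequalities which hold for large `L`. -/
structure LargeL (ε : ℝ) (k : ℕ) (L : ℝ) : Prop where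
  one : 8 ≤ L
  fac : 2 * (7 * k / ε * log (7 * k / ε)) ≤ L
  small : 21 * L ≤ ε / 2560 * exp L
  two : 2 ≤ ε / 2560 * exp L
  sq : 14 * L ^ 2 ≤ exp L
  deg : 168 * exp 2 / (ε / 2560) * L ^ 2 ≤ exp (ε / 16 * L)
  clu : log (2 * k * 2 ^ (8 * k ^ 2)) + (2 * k + 2 * k ^ 2) * log 21 +
    (2 * k + 2 * k ^ 2) * log L ≤ 2 * L

theorem largeL (ε : ℝ) (hε : 0 < ε) (k : ℕ) : ∀ᶠ L : ℝ in atTop, LargeL ε k L := by
  have hτ : 0 < ε / 2560 := by positivity
  filter_upwards [eventually_ge_atTop 8,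
    eventually_ge_atTop (2 * (7 * k / ε * log (7 * k / ε))),
    ev_exp (21 / (ε / 2560)) 1 one_pos, ev_exp (2 / (ε / 2560)) 1 one_pos, ev_exp 14 1 one_pos,
    ev_exp (168 * exp 2 / (ε / 2560)) (ε / 16) (by positivity),
    ev_log (log (2 * k * 2 ^ (8 * k ^ 2)) + (2 * k + 2 * k ^ 2) * log 21) (2 * k + 2 * k ^ 2) 2
      two_pos] with L h1 h2 h3 h4 h5 h6 h7
  rw [one_mul] at h3 h4 h5
  have hL0 : 0 < L := by linarith
  refine ⟨h1, h2, ?_, ?_, h5, h6, h7⟩
  · have h8 : 21 / (ε / 2560) * L ≤ 21 / (ε / 2560) * L ^ 2 := by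
      apply mul_le_mul_of_nonneg_left _ (by positivity)
      nlinarith
    have h9 : 21 / (ε / 2560) * L ≤ exp L := h8.trans h3
    have h10 := mul_le_mul_of_nonneg_left h9 hτ.le
    have h11 : ε / 2560 * (21 / (ε / 2560) * L) = 21 * L := by field_simp
    linarith
  · have h8 : 2 / (ε / 2560) * 1 ≤ 2 / (ε / 2560) * L ^ 2 := by
      apply mul_le_mul_of_nonneg_left _ (by positivity)
      nlinarith
    have h9 : 2 / (ε / 2560) * 1 ≤ exp L := h8.trans h4
    have h10 := mul_le_mul_of_nonneg_left h9 hτ.le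
    have h11 : ε / 2560 * (2 / (ε / 2560) * 1) = 2 := by field_simp
    linarith

/-- The choice of the two degrees. -/
theorem degrees (ε : ℝ) (hε : 0 < ε) (hε1 : ε ≤ 1) (η : ℝ) (hη : 0 < η)
    (hratio : ∀ y : ℝ, 1 + ε / 24 ≤ y → η * hh (2 / ε * y) ≤ hh y) (k : ℕ) (hk : 5 ≤ k)
    (hkη : 16 ≤ k * η) (L l : ℝ) (h8L : 8 ≤ L)
    (hfac : 2 * (7 * k / ε * log (7 * k / ε)) ≤ L) (hl0 : 0 < l)
    (hlow : exp (-(ε / (28 * k ^ 2) * L)) ≤ l) (hup : l * hh 2 ≤ (1 - ε) * L) :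
    ∃ X X' : ℕ, Ph l X' ≤ (1 - ε / 8) * L ∧ (X' : ℝ) ≤ 21 * L ∧ 6 * k ≤ X ∧ X ≤ X' ∧
      8 * L ≤ k * Ph l (((X : ℝ) + 1) / 2) ∧ (1 + ε / 24) * l ≤ ((X : ℝ) + 1) / 2 ∧
      ∀ D : ℕ, ε * X' ≤ D → (2 + ε) * l ≤ D → X ≤ D := by
  have hL0 : 0 < L := by linarith
  have hk0 : (5 : ℝ) ≤ k := by exact_mod_cast hk
  set δ : ℝ := ε / (28 * k ^ 2) with hδ
  have hδ0 : 0 < δ := by positivity
  have hδ1 : δ ≤ 1 / 28 := by
    rw [hδ, div_le_div_iff₀ (by positivity) (by norm_num)]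
    nlinarith
  have hkδ : 7 * k / ε * δ ≤ 1 / 4 := by
    have : 7 * k / ε * δ = 1 / (4 * k) := by rw [hδ]; field_simp; norm_num
    rw [this]
    apply one_div_le_one_div_of_le (by norm_num)
    linarith
  have hh2 := h2_lower
  have hl26 : l ≤ 2.6 * L := by
    have h1 : l * 0.386 ≤ l * hh 2 := mul_le_mul_of_nonneg_left hh2.le hl0.le
    have h2 : (1 - ε) * L ≤ 1 * L := mul_le_mul_of_nonneg_right (by linarith) hL0.le
    linarith
  set R : ℝ := (1 - ε / 8) * L with hR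
  have hceil : Ph l ⌈l⌉₊ ≤ R := by
    refine (Ph_ceil hl0 hδ0.le hL0.le hlow).trans ?_
    rw [hR]
    nlinarith
  obtain ⟨X', hX1, hX2, hX3⟩ := exists_deg hl0 hceil
  have hRL : R ≤ L := by rw [hR]; nlinarith
  have hX21 : (X' : ℝ) ≤ 21 * L := by
    by_contra hno
    push Not at hno
    have := Ph_ge hl0 (x := X') (by linarith)
    linarith
  have hloglow : -(δ * L) ≤ log l := by
    rw [← log_exp (-(δ * L))]
    exact log_le_log (exp_pos _) hlow
  have hkε : 7 ≤ 7 * k / ε := by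
    rw [le_div_iff₀ hε]
    nlinarith
  have hX6 : 6 * k / ε ≤ X' := by
    by_contra hno
    push Not at hno
    have h1 : ((X' : ℝ) + 1) ≤ 7 * k / ε := by
      have h2 : (1 : ℝ) ≤ k / ε := by rw [le_div_iff₀ hε]; nlinarith
      have h3 : 6 * (k : ℝ) / ε = 6 * (k / ε) := by ring
      have h4 : 7 * (k : ℝ) / ε = 7 * (k / ε) := by ring
      rw [h4]
      rw [h3] at hno
      linarith
    have hX10 : (0 : ℝ) < X' + 1 := by positivity
    have h2 : log ((X' : ℝ) + 1) ≤ log (7 * k / ε) := log_le_log hX10 h1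
    have h3 : Ph l (X' + 1) ≤ 7 * k / ε * (log (7 * k / ε) + δ * L) := by
      unfold Ph
      rw [log_div hX10.ne' hl0.ne']
      have h4 : log ((X' : ℝ) + 1) - log l ≤ log (7 * k / ε) + δ * L := by linarith
      have h5 : 0 ≤ log (7 * (k : ℝ) / ε) + δ * L := by
        have : 0 ≤ log (7 * (k : ℝ) / ε) := log_nonneg (by linarith)
        positivity
      have h6 : ((X' : ℝ) + 1) * (log (X' + 1) - log l) ≤
          (X' + 1) * (log (7 * k / ε) + δ * L) := mul_le_mul_of_nonneg_left h4 hX10.le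
      have h7 : ((X' : ℝ) + 1) * (log (7 * k / ε) + δ * L) ≤
          7 * k / ε * (log (7 * k / ε) + δ * L) := mul_le_mul_of_nonneg_right h1 h5
      linarith
    have h8 : 7 * k / ε * δ * L ≤ 1 / 4 * L := mul_le_mul_of_nonneg_right hkδ hL0.le
    have h9 : 7 * k / ε * (log (7 * k / ε) + δ * L) =
      7 * k / ε * log (7 * k / ε) + 7 * k / ε * δ * L := by ring
    rw [h9] at h3
    have h10 : 7 / 8 * L ≤ R := by rw [hR]; nlinarith
    linarith
  have hX0 : (0 : ℝ) < X' := lt_of_lt_of_le (by positivity) hX6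
  -- the ratio
  set z : ℝ := ((X' : ℝ) + 1) / l with hz
  have hPh1 : Ph l (X' + 1) = l * hh z := Ph_eq hl0 _
  have hz1 : 1 ≤ z := by
    rw [hz, le_div_iff₀ hl0]
    linarith
  have hlarge : (1 + ε / 2) * hh 2 < hh z := by
    by_contra hno
    push Not at hno
    have h1 : l * hh z ≤ l * ((1 + ε / 2) * hh 2) := mul_le_mul_of_nonneg_left hno hl0.le
    have h2 : (1 + ε / 2) * (l * hh 2) ≤ (1 + ε / 2) * ((1 - ε) * L) :=
      mul_le_mul_of_nonneg_left hup (by linarith)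
    have h3 : (1 + ε / 2) * (1 - ε) * L ≤ (1 - ε / 8) * L := by
      apply mul_le_mul_of_nonneg_right _ hL0.le
      nlinarith
    rw [hPh1] at hX3
    rw [← hR] at h3
    linarith
  have hz2 : 2 + ε / 6 ≤ z := hh_large hε hε1 hz1 hlarge
  have hX'l : (2 + ε / 6) * l ≤ X' + 1 := by
    rw [hz, le_div_iff₀ hl0] at hz2
    exact hz2
  have hX'l2 : (2 + ε / 12) * l ≤ X' := by
    rcases le_total 1 (ε / 12 * l) with h | h
    · linarith
    · have h1 : l ≤ 12 / ε := by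
        rw [le_div_iff₀ hε]
        linarith
      have h2 : (2 + ε / 12) * l ≤ 2.5 * (12 / ε) := by
        calc (2 + ε / 12) * l ≤ 2.5 * l := mul_le_mul_of_nonneg_right (by linarith) hl0.le
          _ ≤ _ := mul_le_mul_of_nonneg_left h1 (by norm_num)
      have h3 : 2.5 * (12 / ε) ≤ 6 * k / ε := by
        rw [mul_div_assoc']
        apply div_le_div_of_nonneg_right _ hε.le
        linarith
      linarith
  set X : ℕ := max ⌈ε * X'⌉₊ ⌈(2 + ε / 12) * l⌉₊ with hX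
  have hXa : ε * X' ≤ X := (Nat.le_ceil _).trans (by exact_mod_cast le_max_left _ _)
  have hXb : (2 + ε / 12) * l ≤ X := (Nat.le_ceil _).trans (by exact_mod_cast le_max_right _ _)
  have hXX : X ≤ X' := by
    rw [hX, max_le_iff, Nat.ceil_le, Nat.ceil_le]
    exact ⟨by nlinarith, hX'l2⟩
  have hX6k : 6 * k ≤ X := by
    have h1 : 6 * (k : ℝ) ≤ ε * X' := by
      rw [div_le_iff₀ hε] at hX6
      linarith
    exact_mod_cast h1.trans hXa
  have hyl : (1 + ε / 24) * l ≤ ((X : ℝ) + 1) / 2 := by linarith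
  refine ⟨X, X', hX2, hX21, hX6k, hXX, ?_, hyl, ?_⟩
  · set y : ℝ := ((X : ℝ) + 1) / 2 / l with hy
    have hPh2 : Ph l (((X : ℝ) + 1) / 2) = l * hh y := Ph_eq hl0 _
    have hy1 : 1 + ε / 24 ≤ y := by
      rw [hy, le_div_iff₀ hl0]
      exact hyl
    have hzy : z ≤ 2 / ε * y := by
      rw [hz, hy]
      have h1 : 2 / ε * (((X : ℝ) + 1) / 2 / l) = ((X + 1) / ε) / l := by field_simp
      rw [h1]
      apply div_le_div_of_nonneg_right _ hl0.le
      rw [le_div_iff₀ hε]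
      nlinarith
    have h1 := hratio y hy1
    have h2 : hh z ≤ hh (2 / ε * y) := hh_mono hz1 hzy
    have h3 : η * (l * hh z) ≤ l * hh y := by
      have h4 : η * hh z ≤ hh y := (mul_le_mul_of_nonneg_left h2 hη.le).trans h1
      have := mul_le_mul_of_nonneg_left h4 hl0.le
      linarith
    rw [← hPh1, ← hPh2] at h3
    have h5 : η * R ≤ η * Ph l (X' + 1) := mul_le_mul_of_nonneg_left hX3.le hη.le
    have h6 : (k : ℝ) * (η * R) ≤ k * Ph l (((X : ℝ) + 1) / 2) :=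
      mul_le_mul_of_nonneg_left (h5.trans h3) (by positivity)
    have h7 : 1 / 2 * L ≤ R := by rw [hR]; nlinarith
    have h8 : (16 : ℝ) * R ≤ k * η * R := mul_le_mul_of_nonneg_right hkη (by linarith)
    linarith
  · intro D h1 h2
    rw [hX, max_le_iff, Nat.ceil_le, Nat.ceil_le]
    refine ⟨h1, le_trans ?_ h2⟩
    apply mul_le_mul_of_nonneg_right _ hl0.le
    linarith

/-- The probability that there is no vertex of degree `X'`. -/
theorem first_term (ε : ℝ) (hε : 0 < ε) (hε1 : ε ≤ 1) (n : ℕ) (hn : 1 ≤ n) (L : ℝ)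
    (heL : exp L = n) (h8L : 8 ≤ L) (hsmall : 21 * L ≤ ε / 2560 * n) (_htwo : 2 ≤ ε / 2560 * n)
    (hdeg : 168 * exp 2 / (ε / 2560) * L ^ 2 ≤ exp (ε / 16 * L))
    (p : ℝ) (hp0 : 0 < p) (hp2 : p ≤ 1 / 2) (hlp : 2 * (n * p) * p ≤ 1) (X : ℕ) (hX0 : 1 ≤ X)
    (hX2 : Ph (n * p) X ≤ (1 - ε / 8) * L) (hX21 : (X : ℝ) ≤ 21 * L) :
    ∃ A : Finset (Fin n),
      (1 - ((n - A.card).choose X : ℝ) * (p ^ X * (1 - p) ^ (n - A.card - X))) ^ A.card ≤
        exp (-(4 * L)) := by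
  have hn0 : (0 : ℝ) < n := by exact_mod_cast hn
  have hXr : (0 : ℝ) < X := by exact_mod_cast hX0
  have hL0 : 0 < L := by linarith
  set τ : ℝ := ε / 2560 with hτ
  have hτ0 : 0 < τ := by positivity
  set a : ℕ := ⌊τ * n⌋₊ with ha
  have ha1 : (a : ℝ) ≤ τ * n := Nat.floor_le (by positivity)
  have ha2 : τ * n - 1 < a := by
    have := Nat.lt_floor_add_one (τ * n)
    linarith
  have hττ : τ * n + τ * n ≤ n := by
    have : τ ≤ 1 / 2 := by rw [hτ]; linarith
    nlinarith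
  have ha3 : a ≤ n := by
    have : (a : ℝ) ≤ n := by
      have : 0 < τ * n := by positivity
      linarith
    exact_mod_cast this
  obtain ⟨A, -, hA⟩ := exists_subset_card_eq (s := (univ : Finset (Fin n))) (n := a)
    (by rw [card_univ, Fintype.card_fin]; exact ha3)
  refine ⟨A, ?_⟩
  have hb1 := binom_le_one A X p hp0.le (by linarith)
  rw [hA] at hb1 ⊢
  refine no_deg n a X p τ (4 * L) hn hp0 hp2 hX0 hτ0.le (by rw [hτ]; linarith) ?_ hlp ?_ hb1
  · have h1 : (a : ℝ) + X ≤ n := by linarith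
    have h2 : a + X ≤ n := by exact_mod_cast h1
    have h3 : n - a + 1 - X + (a + X) = n + 1 := by omega
    have h4 : ((n - a + 1 - X : ℕ) : ℝ) + (a + X) = n + 1 := by exact_mod_cast h3
    have h5 : (1 - 2 * τ) * n = n - (τ * n + τ * n) := by ring
    rw [h5]
    linarith
  · -- the number of vertices of degree X is large
    have h2 : -L + ε / 16 * L - 2 ≤ -Ph (n * p) X - 4 * τ * X - 2 := by
      have h3 : 4 * τ * X ≤ ε / 16 * L := by
        have h4 : 4 * τ * X ≤ 4 * τ * (21 * L) := mul_le_mul_of_nonneg_left hX21 (by positivity)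
        have h5 : 4 * τ * (21 * L) = 84 / 2560 * (ε * L) := by rw [hτ]; ring
        have h6 : 0 < ε * L := by positivity
        linarith
      linarith
    have h4 : exp (-L + ε / 16 * L - 2) ≤ exp (-Ph (n * p) X - 4 * τ * X - 2) :=
      exp_le_exp.2 h2
    have h5 : exp (-L + ε / 16 * L - 2) = exp (ε / 16 * L) / (n * exp 2) := by
      rw [show -L + ε / 16 * L - 2 = ε / 16 * L - (L + 2) by ring, exp_sub, exp_add, heL]
    have h6 : τ * n / 2 ≤ a := by linarith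
    have h7 : exp (ε / 16 * L) / (n * exp 2) / (21 * L) ≤
        exp (-Ph (n * p) X - 4 * τ * X - 2) / X := by
      apply div_le_div₀ (exp_pos _).le _ hXr hX21
      rw [← h5]; exact h4
    calc 4 * L = τ * n / 2 * ((168 * exp 2 / τ * L ^ 2) / (n * exp 2) / (21 * L)) := by
          field_simp; norm_num
      _ ≤ τ * n / 2 * (exp (ε / 16 * L) / (n * exp 2) / (21 * L)) := by
          apply mul_le_mul_of_nonneg_left _ (by positivity)
          apply div_le_div_of_nonneg_right _ (by positivity)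
          apply div_le_div_of_nonneg_right hdeg (by positivity)
      _ ≤ a * (exp (-Ph (n * p) X - 4 * τ * X - 2) / X) :=
          mul_le_mul h6 h7 (by positivity) (Nat.cast_nonneg _)

/-- The probability of a cluster is small. -/
theorem second_term (ε : ℝ) (hε : 0 < ε) (hε1 : ε ≤ 1) (n k X : ℕ) (hn : 1 ≤ n) (hk : 5 ≤ k)
    (L : ℝ) (heL : exp L = n) (h8L : 8 ≤ L)
    (hclu : log (2 * k * 2 ^ (8 * k ^ 2)) + (2 * k + 2 * k ^ 2) * log 21 +
      (2 * k + 2 * k ^ 2) * log L ≤ 2 * L) (p : ℝ) (hp0 : 0 < p) (hl26 : n * p ≤ 2.6 * L)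
    (hlow : exp (-(ε / (28 * k ^ 2) * L)) ≤ n * p) (hX21 : (X : ℝ) ≤ 21 * L)
    (hPhk : 8 * L ≤ k * Ph (n * p) (((X : ℝ) + 1) / 2))
    (hyl : (1 + ε / 24) * (n * p) ≤ ((X : ℝ) + 1) / 2) :
    ∃ s : ℝ, 0 ≤ s ∧ 2 * (k : ℝ) * 2 ^ (8 * k ^ 2) * (n * (1 + n * p) ^ (2 * k)) *
      exp (-(k * (s * (((X : ℝ) + 1) / 2 - 2 * k))) + k * (p * n * (exp s - 1))) ≤
        exp (-(4 * L)) := by
  have hn0 : (0 : ℝ) < n := by exact_mod_cast hn
  have hL0 : 0 < L := by linarith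
  have hk0 : (5 : ℝ) ≤ k := by exact_mod_cast hk
  set l : ℝ := n * p with hl
  have hl0 : 0 < l := by positivity
  have hpn : p * n = l := by rw [hl]; ring
  set δ : ℝ := ε / (28 * k ^ 2) with hδ
  have hk2δ : 2 * (k : ℝ) ^ 2 * δ ≤ 1 := by
    have : 2 * (k : ℝ) ^ 2 * δ = ε / 14 := by rw [hδ]; field_simp; norm_num
    rw [this]
    linarith
  have hloglow : -(δ * L) ≤ log l := by
    rw [← log_exp (-(δ * L))]
    exact log_le_log (exp_pos _) hlow
  set κ : ℝ := ((X : ℝ) + 1) / 2 with hκ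
  have hκ0 : 0 < κ := by positivity
  set y : ℝ := κ / l with hy
  have hy1 : 1 + ε / 24 ≤ y := by rw [hy, le_div_iff₀ hl0]; exact hyl
  have hy0 : 0 < y := by linarith
  set s : ℝ := log y with hs
  have hs0 : 0 ≤ s := log_nonneg (by linarith)
  have hes : exp s = y := exp_log hy0
  refine ⟨s, hs0, ?_⟩
  have hC : (2 * (k : ℝ) * 2 ^ (8 * k ^ 2)) = exp (log (2 * k * 2 ^ (8 * k ^ 2))) :=
    (exp_log (by positivity)).symm
  have h21 : log (21 * L) = log 21 + log L := log_mul (by norm_num) hL0.ne'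
  have h1 : (1 + l) ^ (2 * k) ≤ exp (2 * k * (log 21 + log L)) := by
    calc (1 + l) ^ (2 * k) ≤ (21 * L) ^ (2 * k) := by
          apply pow_le_pow_left₀ (by positivity)
          linarith
      _ = exp (2 * k * (log 21 + log L)) := by
          rw [← h21]
          have : (2 * (k : ℝ)) = ((2 * k : ℕ) : ℝ) := by push_cast; ring
          rw [this, exp_nat_mul, exp_log (by positivity)]
  have h2 : -(k * (s * (κ - 2 * k))) + k * (p * n * (exp s - 1)) =
      -(k * Ph l κ) + 2 * k ^ 2 * s := by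
    rw [hes, hpn]
    have h3 : l * (y - 1) = κ - l := by rw [hy]; field_simp
    rw [h3]
    unfold Ph
    rw [← hy, ← hs]
    ring
  have h4 : s ≤ log 21 + log L + δ * L := by
    rw [hs, hy, log_div hκ0.ne' hl0.ne', ← h21]
    have h5 : log κ ≤ log (21 * L) := log_le_log hκ0 (by rw [hκ]; linarith)
    linarith
  have h6 : 2 * (k : ℝ) ^ 2 * s ≤ 2 * k ^ 2 * (log 21 + log L + δ * L) :=
    mul_le_mul_of_nonneg_left h4 (by positivity)
  have h7 : 2 * (k : ℝ) ^ 2 * δ * L ≤ 1 * L := mul_le_mul_of_nonneg_right hk2δ hL0.le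
  calc 2 * (k : ℝ) * 2 ^ (8 * k ^ 2) * (n * (1 + l) ^ (2 * k)) *
        exp (-(k * (s * (κ - 2 * k))) + k * (p * n * (exp s - 1)))
      ≤ exp (log (2 * k * 2 ^ (8 * k ^ 2))) * (exp L * exp (2 * k * (log 21 + log L))) *
        exp (-(8 * L) + 2 * k ^ 2 * (log 21 + log L + δ * L)) := by
        rw [← hC, heL, h2]
        apply mul_le_mul _ _ (exp_pos _).le (by positivity)
        · apply mul_le_mul_of_nonneg_left _ (by positivity)
          exact mul_le_mul_of_nonneg_left h1 hn0.le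
        · apply exp_le_exp.2
          linarith
    _ = exp (log (2 * k * 2 ^ (8 * k ^ 2)) + (L + 2 * k * (log 21 + log L)) +
        (-(8 * L) + 2 * k ^ 2 * (log 21 + log L + δ * L))) := by
        rw [← exp_add, ← exp_add, ← exp_add]
    _ ≤ exp (-(4 * L)) := by
        apply exp_le_exp.2
        have e1 : log (2 * k * 2 ^ (8 * k ^ 2)) + (L + 2 * k * (log 21 + log L)) +
            (-(8 * L) + 2 * k ^ 2 * (log 21 + log L + δ * L)) =
          (log (2 * k * 2 ^ (8 * k ^ 2)) + (2 * k + 2 * k ^ 2) * log 21 +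
            (2 * k + 2 * k ^ 2) * log L) - 7 * L + 2 * (k : ℝ) ^ 2 * δ * L := by ring
        rw [e1]
        linarith

theorem main_at (ε : ℝ) (hε : 0 < ε) (hε1 : ε ≤ 1) (η : ℝ) (hη : 0 < η)
    (hratio : ∀ y : ℝ, 1 + ε / 24 ≤ y → η * hh (2 / ε * y) ≤ hh y) (k : ℕ) (hk : 5 ≤ k)
    (hkη : 16 ≤ k * η) (n : ℕ) (hn : 1 ≤ n) (hL : LargeL ε k (log n)) (p : ℝ) (hp0 : 0 < p)
    (hlow : exp (-(ε / (28 * k ^ 2) * log n)) ≤ n * p)
    (hup : n * p * hh 2 ≤ (1 - ε) * log n) :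
    gnp n p (fun G => ¬ Fine ε (n * p) G) ≤ exp (-(3 * log n)) := by
  have hn0 : (0 : ℝ) < n := by exact_mod_cast hn
  set L := log n with hLdef
  have heL : exp L = n := exp_log hn0
  obtain ⟨h8L, hfac, hsmall, _htwo, hsq, hdeg, hclu⟩ := hL
  rw [heL] at hsmall _htwo hsq
  have hL0 : 0 < L := by linarith
  have hl0 : 0 < n * p := by positivity
  have hl26 : n * p ≤ 2.6 * L := by
    have h1 : n * p * 0.386 ≤ n * p * hh 2 := mul_le_mul_of_nonneg_left h2_lower.le hl0.le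
    have h2 : (1 - ε) * L ≤ 1 * L := mul_le_mul_of_nonneg_right (by linarith) hL0.le
    linarith
  have hpl : p = n * p / n := by field_simp
  have hp2 : p ≤ 1 / 2 := by
    rw [hpl, div_le_iff₀ hn0]
    nlinarith
  have hp1 : p ≤ 1 := by linarith
  have hlp : 2 * (n * p) * p ≤ 1 := by
    have h2 : 2 * (n * p) * p = 2 * (n * p) * (n * p) / n := by field_simp
    rw [h2, div_le_one hn0]
    nlinarith
  obtain ⟨X, X', hX2, hX21, hX6, hXX, hPhk, hyl, hXD⟩ := degrees ε hε hε1 η hη hratio k hk hkη L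
    (n * p) h8L hfac hl0 hlow hup
  have hXr : (X : ℝ) ≤ X' := by exact_mod_cast hXX
  obtain ⟨A, hA⟩ := first_term ε hε hε1 n hn L heL h8L hsmall _htwo hdeg p hp0 hp2 hlp X'
    (by omega) hX2 hX21
  obtain ⟨s, hs, hS⟩ := second_term ε hε hε1 n k X hn hk L heL h8L hclu p hp0 hl26 hlow
    (by linarith) hPhk hyl
  have hF : gnp n p (fun G => ¬ Fine ε (n * p) G) ≤
      gnp n p (fun G => ¬ ((∃ v, X' ≤ dg G v) ∧ ∀ H ≤ G, ∀ D : ℕ, (∀ v, dg H v ≤ D) → X ≤ D →
        Choosable H D)) := by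
    apply gnp_imp hp0.le hp1
    intro G hG hno
    apply hG
    obtain ⟨⟨v, hv⟩, hall⟩ := hno
    intro H hH D hD hor
    apply hall H hH D hD
    rcases hor with rfl | ⟨h1, h2⟩
    · exact hXX.trans (hv.trans (hD v))
    · apply hXD D _ h2
      refine le_trans ?_ (h1 v)
      apply mul_le_mul_of_nonneg_left _ hε.le
      exact_mod_cast hv
  refine hF.trans ((fail_gnp p hp0.le hp1 k X X' (by omega) hX6 s hs A).trans ?_)
  refine (add_le_add hA hS).trans ?_
  have h1 : exp (-(3 * L)) = exp L * exp (-(4 * L)) := by rw [← exp_add]; ring_nf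
  have h2 : 2 ≤ exp L := by
    have := add_one_le_exp L
    linarith
  rw [h1]
  have := mul_le_mul_of_nonneg_right h2 (exp_pos (-(4 * L))).le
  linarith

theorem main_dense (ε : ℝ) (hε : 0 < ε) (hε1 : ε ≤ 1) : ∃ δ : ℝ, 0 < δ ∧ ∃ N : ℕ, ∀ n : ℕ,
    N ≤ n → ∀ p : ℝ, 0 ≤ p → exp (-(δ * log n)) ≤ n * p →
    n * p * hh 2 ≤ (1 - ε) * log n →
    gnp n p (fun G => ¬ Fine ε (n * p) G) ≤ exp (-(3 * log n)) := by
  have h2ε : 1 ≤ 2 / ε := by
    rw [le_div_iff₀ hε]
    linarith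
  obtain ⟨η, hη, hratio⟩ := hh_ratio (ε / 24) (2 / ε) (by positivity) h2ε
  set k : ℕ := max 5 ⌈16 / η⌉₊ with hk
  have hk1 : 5 ≤ k := le_max_left _ _
  have hkη : 16 ≤ k * η := by
    have h1 : 16 / η ≤ k := (Nat.le_ceil (16 / η)).trans (by exact_mod_cast le_max_right _ _)
    rw [div_le_iff₀ hη] at h1
    exact h1
  have hk0 : (0 : ℝ) < k := by exact_mod_cast (show 0 < k by omega)
  refine ⟨ε / (28 * k ^ 2), by positivity, ?_⟩
  have ht : Tendsto (fun n : ℕ => log (n : ℝ)) atTop atTop :=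
    tendsto_log_atTop.comp tendsto_natCast_atTop_atTop
  obtain ⟨N, hN⟩ := eventually_atTop.1 ((ht.eventually (largeL ε hε k)).and
    (eventually_ge_atTop 1))
  refine ⟨N, fun n hn p hp0 h1 h2 => ?_⟩
  obtain ⟨hL, hn1⟩ := hN n hn
  have hp0' : 0 < p := by
    rcases hp0.lt_or_eq with h | h
    · exact h
    · rw [← h, mul_zero] at h1
      exact absurd h1 (not_le.2 (exp_pos _))
  exact main_at ε hε hε1 η hη hratio k hk1 hkη n hn1 hL p hp0' h1 h2

end Pool.Agent.Q127.LR
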