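import Pool.Agent.TH948.SH.Base
import Pool.Agent.Q127.LR.Forest

set_option autoImplicit false
set_option linter.unusedSectionVars false

/-!
# Degrees in `G(n,p)`
-/

namespace Pool.Agent.Q127.LR

open Finset Pool.Agent.TH559.LE Pool.Agent.TH948.SH Pool.Agent.TH965.Spread Pool.Agent.TH965.Emb
open scoped Classical

section gen

variable {X : Type} [DecidableEq X]

theorem exs_single (x : X) (p : ℝ) (f : Finset X → ℝ) :
    exs {x} p f = (1 - p) * f ∅ + p * f {x} := by
  have h := exs_insert (∅ : Finset X) x (by simp) p f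
  rw [exs_empty, exs_empty] at h
  simpa using h

theorem exs_point (s B : Finset X) (hB : B ⊆ s) (p : ℝ) (u z : X → ℝ) :
    exs s p (fun W => ∏ i ∈ B, if i ∈ W then u i else z i) =
      ∏ i ∈ B, ((1 - p) * z i + p * u i) := by
  have h := exs_prod B p (fun i => ({i} : Finset X)) (fun i W => if i ∈ W then u i else z i) s
    (fun i hi => by simpa using hB hi)
    (fun i _ j _ hij => by simpa using hij)
  have e1 : (fun W : Finset X => ∏ i ∈ B, if i ∈ W then u i else z i) =
      fun W => ∏ i ∈ B, (fun i (W : Finset X) => if i ∈ W then u i else z i) i (W ∩ {i}) := by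
    funext W
    apply prod_congr rfl
    intro i _
    simp
  rw [e1, h]
  apply prod_congr rfl
  intro i _
  rw [exs_single]
  simp

theorem exs_card (s : Finset X) (p : ℝ) (k : ℕ) :
    exs s p (fun W => if W.card = k then 1 else 0) =
      (s.card.choose k : ℝ) * (p ^ k * (1 - p) ^ (s.card - k)) := by
  unfold exs
  have h1 : ∀ W ∈ s.powerset, p ^ W.card * (1 - p) ^ (s.card - W.card) *
      (if W.card = k then (1 : ℝ) else 0) =
      if W.card = k then p ^ k * (1 - p) ^ (s.card - k) else 0 := by
    intro W _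
    by_cases h : W.card = k
    · simp [h]
    · simp [h]
  rw [sum_congr rfl h1, ← sum_filter, sum_const, nsmul_eq_mul]
  congr 2
  rw [← card_powersetCard]
  congr 1
  ext W
  simp [mem_powersetCard]

end gen

variable {n : ℕ}

theorem dg_from (S : Finset (Sym2 (Fin n))) (v : Fin n) :
    dg (SimpleGraph.fromEdgeSet (S : Set (Sym2 (Fin n)))) v =
      (univ.filter fun w => s(v, w) ∈ S ∧ v ≠ w).card := by
  rw [dg_eq]
  congr 1

/-- The probability that the edges `T` inside `W` are present and the vertices of `I` have large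
degrees. -/
theorem cluster_bound (p : ℝ) (hp0 : 0 ≤ p) (hp1 : p ≤ 1) (W I : Finset (Fin n))
    (hI : I ⊆ W) (T : Finset (Sym2 (Fin n))) (hT : ∀ e ∈ T, ¬ e.IsDiag)
    (hTW : ∀ e ∈ T, ∀ x ∈ e, x ∈ W) (κ s : ℝ) (hs : 0 ≤ s) :
    gnp n p (fun G => (∀ e ∈ T, e ∈ G.edgeSet) ∧ ∀ v ∈ I, κ ≤ (dg G v : ℝ)) ≤
      p ^ T.card * Real.exp (-(I.card * (s * (κ - W.card))) +
        I.card * (p * n * (Real.exp s - 1))) := by
  set F : Finset (Sym2 (Fin n)) := (I ×ˢ Wᶜ).image fun q => s(q.1, q.2) with hF
  have hinj : Set.InjOn (fun q : Fin n × Fin n => s(q.1, q.2)) (I ×ˢ Wᶜ : Finset _) := by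
    rintro ⟨a, b⟩ h1 ⟨c, d⟩ h2 h3
    rw [mem_coe, mem_product, mem_compl] at h1 h2
    simp only [Sym2.eq_iff] at h3
    rcases h3 with ⟨rfl, rfl⟩ | ⟨rfl, rfl⟩
    · rfl
    · exact absurd (hI h1.1) h2.2
  have hFc : F.card = I.card * (Wᶜ).card := by
    rw [hF, card_image_of_injOn hinj, card_product]
  have hFd : ∀ e ∈ F, ¬ e.IsDiag := by
    intro e he
    rw [hF, mem_image] at he
    obtain ⟨⟨a, b⟩, hq, rfl⟩ := he
    rw [mem_product, mem_compl] at hq
    simp only [Sym2.mk_isDiag_iff]
    rintro rfl
    exact hq.2 (hI hq.1)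
  have hdis : Disjoint T F := by
    rw [disjoint_left]
    intro e he he2
    rw [hF, mem_image] at he2
    obtain ⟨⟨a, b⟩, hq, rfl⟩ := he2
    rw [mem_product, mem_compl] at hq
    exact hq.2 (hTW _ he b (Sym2.mem_mk_right a b))
  have hsub : T ∪ F ⊆ eF (⊤ : SimpleGraph (Fin n)) := by
    intro e he
    rw [mem_top_eF]
    rcases mem_union.1 he with h | h
    · exact hT e h
    · exact hFd e h
  set u : Sym2 (Fin n) → ℝ := fun e => if e ∈ T then 1 else Real.exp s with hu
  set z : Sym2 (Fin n) → ℝ := fun e => if e ∈ T then 0 else 1 with hz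
  set c : ℝ := Real.exp (-(I.card * (s * (κ - W.card)))) with hc
  have hmain : gnp n p (fun G => (∀ e ∈ T, e ∈ G.edgeSet) ∧ ∀ v ∈ I, κ ≤ (dg G v : ℝ)) ≤
      exs (eF (⊤ : SimpleGraph (Fin n))) p
        (fun S => c * ∏ e ∈ T ∪ F, if e ∈ S then u e else z e) := by
    rw [gnp_eq]
    apply exs_mono _ hp0 hp1
    intro S _
    have hnn : 0 ≤ c * ∏ e ∈ T ∪ F, if e ∈ S then u e else z e := by
      apply mul_nonneg (Real.exp_pos _).le
      apply prod_nonneg
      intro e _
      simp only [hu, hz]
      split_ifs <;> first | exact (Real.exp_pos _).le | norm_num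
    split_ifs with hev
    · obtain ⟨h1, h2⟩ := hev
      rw [prod_union hdis]
      have e1 : ∏ e ∈ T, (if e ∈ S then u e else z e) = 1 := by
        apply prod_eq_one
        intro e he
        have : e ∈ S := (mem_from (hT e he)).1 (h1 e he)
        simp [this, hu, he]
      have e2 : ∏ e ∈ F, (if e ∈ S then u e else z e) = Real.exp (s * (F.filter (· ∈ S)).card) := by
        have : ∀ e ∈ F, (if e ∈ S then u e else z e) = if e ∈ S then Real.exp s else 1 := by
          intro e he
          have hn : e ∉ T := fun h => (disjoint_left.1 hdis) h he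
          simp [hu, hz, hn]
        rw [prod_congr rfl this, ← prod_filter, prod_const, ← Real.exp_nat_mul, mul_comm]
      rw [e1, e2, one_mul, hc, ← Real.exp_add]
      apply Real.one_le_exp
      have hcount : (I.card : ℝ) * (κ - W.card) ≤ (F.filter (· ∈ S)).card := by
        have h3 : (F.filter (· ∈ S)).card = ∑ v ∈ I, (Wᶜ.filter fun w => s(v, w) ∈ S).card := by
          rw [hF, filter_image, card_image_of_injOn (hinj.mono (by
            intro q hq
            exact (mem_filter.1 (mem_coe.1 hq)).1))]
          rw [← card_sigma]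
          apply card_bij' (fun q _ => (⟨q.1, q.2⟩ : (_ : Fin n) × Fin n))
            (fun q _ => (q.1, q.2))
          · rintro ⟨a, b⟩ hq
            simpa [mem_sigma, and_assoc] using hq
          · rintro ⟨a, b⟩ hq
            simpa [mem_sigma, and_assoc] using hq
          · rintro ⟨a, b⟩ _; rfl
          · rintro ⟨a, b⟩ _; rfl
        rw [h3, Nat.cast_sum]
        have h4 : ∀ v ∈ I, κ - W.card ≤ ((Wᶜ.filter fun w => s(v, w) ∈ S).card : ℝ) := by
          intro v hv
          have h5 := h2 v hv
          rw [dg_from] at h5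
          have h6 : (univ.filter fun w => s(v, w) ∈ S ∧ v ≠ w).card ≤
              (Wᶜ.filter fun w => s(v, w) ∈ S).card + W.card := by
            rw [← card_union_of_disjoint]
            · apply card_le_card
              intro w hw
              rw [mem_filter] at hw
              rw [mem_union, mem_filter, mem_compl]
              by_cases hwW : w ∈ W
              · exact Or.inr hwW
              · exact Or.inl ⟨hwW, hw.2.1⟩
            · rw [disjoint_left]
              intro w hw
              exact mem_compl.1 (mem_filter.1 hw).1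
          have h7 : ((univ.filter fun w => s(v, w) ∈ S ∧ v ≠ w).card : ℝ) ≤
              (Wᶜ.filter fun w => s(v, w) ∈ S).card + W.card := by exact_mod_cast h6
          linarith
        calc (I.card : ℝ) * (κ - W.card) = ∑ _v ∈ I, (κ - W.card) := by
              rw [sum_const, nsmul_eq_mul]
          _ ≤ _ := sum_le_sum h4
      have := mul_le_mul_of_nonneg_left hcount hs
      linarith
    · exact hnn
  refine hmain.trans ?_
  rw [exs_mul_left, exs_point _ _ hsub, prod_union hdis]
  have e1 : ∏ e ∈ T, ((1 - p) * z e + p * u e) = p ^ T.card := by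
    rw [← prod_const]
    apply prod_congr rfl
    intro e he
    simp [hu, hz, he]
  have e2 : ∏ e ∈ F, ((1 - p) * z e + p * u e) ≤ Real.exp (I.card * (p * n * (Real.exp s - 1))) := by
    have h1 : ∏ e ∈ F, ((1 - p) * z e + p * u e) = (1 + p * (Real.exp s - 1)) ^ F.card := by
      rw [← prod_const]
      apply prod_congr rfl
      intro e he
      have hn : e ∉ T := fun h => (disjoint_left.1 hdis) h he
      simp only [hu, hz, hn, if_false]
      ring
    have hes : 1 ≤ Real.exp s := Real.one_le_exp hs
    rw [h1]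
    have h2 : (1 + p * (Real.exp s - 1)) ^ F.card ≤ Real.exp (p * (Real.exp s - 1)) ^ F.card := by
      apply pow_le_pow_left₀
      · have := mul_nonneg hp0 (sub_nonneg.2 hes); linarith
      · rw [add_comm]; exact Real.add_one_le_exp _
    refine h2.trans ?_
    rw [← Real.exp_nat_mul]
    apply Real.exp_le_exp.2
    have h3 : (F.card : ℝ) ≤ I.card * n := by
      rw [hFc]
      have : (Wᶜ).card ≤ n := by simpa using card_le_univ (Wᶜ)
      exact_mod_cast Nat.mul_le_mul_left _ this
    have h4 : 0 ≤ p * (Real.exp s - 1) := mul_nonneg hp0 (sub_nonneg.2 hes)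
    have := mul_le_mul_of_nonneg_right h3 h4
    nlinarith
  rw [e1, Real.exp_add, ← hc]
  have hpT : 0 ≤ p ^ T.card := pow_nonneg hp0 _
  calc c * (p ^ T.card * ∏ e ∈ F, ((1 - p) * z e + p * u e))
      ≤ c * (p ^ T.card * Real.exp (I.card * (p * n * (Real.exp s - 1)))) := by
        apply mul_le_mul_of_nonneg_left _ (Real.exp_pos _).le
        exact mul_le_mul_of_nonneg_left e2 hpT
    _ = p ^ T.card * (c * Real.exp (I.card * (p * n * (Real.exp s - 1)))) := by ring

/-- The probability that all degrees are smaller than `k`. -/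
theorem degree_bound (p : ℝ) (hp0 : 0 ≤ p) (hp1 : p ≤ 1) (A : Finset (Fin n)) (k : ℕ) :
    gnp n p (fun G => ∀ v, dg G v < k) ≤
      (1 - ((n - A.card).choose k : ℝ) * (p ^ k * (1 - p) ^ (n - A.card - k))) ^ A.card := by
  set T : Fin n → Finset (Sym2 (Fin n)) := fun v => Aᶜ.image fun w => s(v, w) with hT
  have hTc : ∀ v, (T v).card = n - A.card := by
    intro v
    rw [hT]
    simp only
    rw [card_image_of_injective, card_compl, Fintype.card_fin]
    intro a b hab
    exact Sym2.congr_right.1 hab
  have hTd : ∀ v ∈ A, ∀ e ∈ T v, ¬ e.IsDiag := by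
    intro v hv e he
    simp only [hT, mem_image, mem_compl] at he
    obtain ⟨w, hw, rfl⟩ := he
    simp only [Sym2.mk_isDiag_iff]
    rintro rfl
    exact hw hv
  have hdis : ∀ i ∈ A, ∀ j ∈ A, i ≠ j → Disjoint (T i) (T j) := by
    intro i hi j hj hij
    rw [disjoint_left]
    intro e h1 h2
    simp only [hT, mem_image, mem_compl] at h1 h2
    obtain ⟨a, ha, rfl⟩ := h1
    obtain ⟨b, hb, h3⟩ := h2
    rw [Sym2.eq_iff] at h3
    rcases h3 with ⟨h3, _⟩ | ⟨h3, _⟩
    · exact hij h3.symm
    · exact ha (h3 ▸ hj)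
  have hsub : ∀ i ∈ A, T i ⊆ eF (⊤ : SimpleGraph (Fin n)) := by
    intro i hi e he
    rw [mem_top_eF]
    exact hTd i hi e he
  set g : Fin n → Finset (Sym2 (Fin n)) → ℝ := fun _ S => 1 + (-1) * (if S.card = k then 1 else 0)
    with hg
  have h1 : ∀ i ∈ A, exs (T i) p (g i) =
      1 - ((n - A.card).choose k : ℝ) * (p ^ k * (1 - p) ^ (n - A.card - k)) := by
    intro i _
    simp only [hg]
    rw [exs_add, exs_const, exs_mul_left, exs_card, hTc]
    ring
  have hmain : gnp n p (fun G => ∀ v, dg G v < k) ≤
      exs (eF (⊤ : SimpleGraph (Fin n))) p (fun S => ∏ i ∈ A, g i (S ∩ T i)) := by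
    rw [gnp_eq]
    apply exs_mono _ hp0 hp1
    intro S _
    have hg01 : ∀ i S, 0 ≤ g i S := by
      intro i S
      simp only [hg]
      split_ifs <;> norm_num
    split_ifs with hev
    · rw [prod_eq_one]
      intro i hi
      have h2 : (S ∩ T i).card ≤ dg (SimpleGraph.fromEdgeSet (S : Set (Sym2 (Fin n)))) i := by
        rw [dg_from]
        have h3 : S ∩ T i ⊆ (univ.filter fun w => s(i, w) ∈ S ∧ i ≠ w).image fun w => s(i, w) := by
          intro e he
          rw [mem_inter] at he
          have h4 := hTd i hi e he.2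
          simp only [hT, mem_image, mem_compl] at he
          obtain ⟨h5, w, hw, rfl⟩ := he
          rw [mem_image]
          refine ⟨w, mem_filter.2 ⟨mem_univ _, h5, ?_⟩, rfl⟩
          simpa using h4
        exact (card_le_card h3).trans card_image_le
      have h6 := hev i
      have h7 : (S ∩ T i).card ≠ k := by omega
      simp [hg, h7]
    · exact prod_nonneg fun i _ => hg01 i _
  refine hmain.trans ?_
  rw [exs_prod A p T g _ hsub hdis, prod_congr rfl h1, prod_const]

end Pool.Agent.Q127.LR
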