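import Pool.Agent.Q127.LR.An

set_option autoImplicit false

/-!
# A lower bound for the upper tail of the binomial distribution
-/

namespace Pool.Agent.Q127.LR

open Real Filter

theorem fact_le (X : ℕ) (hX : 1 ≤ X) :
    (X.factorial : ℝ) ≤ X * exp (X * log X - X + 1) := by
  induction X, hX using Nat.le_induction with
  | base => simp
  | succ X hX ih =>
    have hX0 : (0 : ℝ) < X := by exact_mod_cast hX
    rw [Nat.factorial_succ]
    push_cast
    apply mul_le_mul_of_nonneg_left _ (by positivity)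
    refine ih.trans ?_
    have h1 : (X : ℝ) = exp (log X) := (exp_log hX0).symm
    have h2 : (X : ℝ) * exp (X * log X - X + 1) = exp (log X + (X * log X - X + 1)) := by
      rw [exp_add (log (X : ℝ)), exp_log hX0]
    rw [h2]
    apply exp_le_exp.2
    have h3 : 1 - 1 / (((X : ℝ) + 1) / X) ≤ log (((X : ℝ) + 1) / X) := log_lower (by positivity)
    rw [log_div (by positivity) hX0.ne'] at h3
    have h4 : 1 - 1 / (((X : ℝ) + 1) / X) = 1 / (X + 1) := by field_simp; ring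
    rw [h4] at h3
    have h5 : ((X : ℝ) + 1) * (1 / (X + 1)) ≤ (X + 1) * (log (X + 1) - log X) :=
      mul_le_mul_of_nonneg_left h3 (by positivity)
    rw [mul_one_div_cancel (by positivity)] at h5
    nlinarith

theorem one_sub_ge_exp {t : ℝ} (h0 : 0 ≤ t) (h1 : t ≤ 1 / 2) : exp (-(2 * t)) ≤ 1 - t := by
  rw [exp_neg, inv_le_comm₀ (exp_pos _) (by linarith), ← one_div, div_le_iff₀ (by linarith)]
  have h2 := add_one_le_exp (2 * t)
  have h3 : (2 * t + 1) * (1 - t) ≤ exp (2 * t) * (1 - t) :=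
    mul_le_mul_of_nonneg_right h2 (by linarith)
  nlinarith

theorem one_sub_ge_exp' {t : ℝ} (_h0 : 0 ≤ t) (h1 : t ≤ 1 / 2) :
    exp (-(t + 2 * t ^ 2)) ≤ 1 - t := by
  rw [exp_neg, inv_le_comm₀ (exp_pos _) (by linarith), ← one_div, div_le_iff₀ (by linarith)]
  have h2 := add_one_le_exp (t + 2 * t ^ 2)
  have h3 : (t + 2 * t ^ 2 + 1) * (1 - t) ≤ exp (t + 2 * t ^ 2) * (1 - t) :=
    mul_le_mul_of_nonneg_right h2 (by linarith)
  nlinarith [sq_nonneg t]

theorem binom_lower (n a X : ℕ) (p τ : ℝ) (hn : 1 ≤ n) (hp : 0 < p) (hp2 : p ≤ 1 / 2)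
    (hX : 1 ≤ X) (hτ : 0 ≤ τ) (hτ4 : τ ≤ 1 / 4)
    (hN : (1 - 2 * τ) * n ≤ ((n - a + 1 - X : ℕ) : ℝ)) (hlp : 2 * (n * p) * p ≤ 1) :
    exp (-Ph (n * p) X - 4 * τ * X - 2) / X ≤
      ((n - a).choose X : ℝ) * (p ^ X * (1 - p) ^ (n - a - X)) := by
  have hX0 : (0 : ℝ) < X := by exact_mod_cast hX
  have hn0 : (0 : ℝ) < n := by exact_mod_cast hn
  set l : ℝ := n * p with hl
  have hl0 : 0 < l := by positivity
  have h1 : ((n - a + 1 - X : ℕ) : ℝ) ^ X ≤ X.factorial * ((n - a).choose X : ℝ) := by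
    have h2 := Nat.pow_sub_le_descFactorial (n - a) X
    rw [Nat.descFactorial_eq_factorial_mul_choose] at h2
    exact_mod_cast h2
  have h3 : exp (X * log l - 4 * τ * X) ≤ p ^ X * ((n - a + 1 - X : ℕ) : ℝ) ^ X := by
    rw [← mul_pow]
    have h4 : exp (X * log l - 4 * τ * X) = (l * exp (-(2 * (2 * τ)))) ^ X := by
      rw [mul_pow, ← exp_nat_mul, sub_eq_add_neg, exp_add, exp_nat_mul, exp_log hl0]
      congr 2
      ring
    rw [h4]
    apply pow_le_pow_left₀ (by positivity)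
    have h5 := one_sub_ge_exp (t := 2 * τ) (by linarith) (by linarith)
    calc l * exp (-(2 * (2 * τ))) ≤ l * (1 - 2 * τ) := mul_le_mul_of_nonneg_left h5 hl0.le
      _ = p * ((1 - 2 * τ) * n) := by rw [hl]; ring
      _ ≤ p * ((n - a + 1 - X : ℕ) : ℝ) := mul_le_mul_of_nonneg_left hN hp.le
  have h6 : exp (-l - 1) ≤ (1 - p) ^ (n - a - X) := by
    have h7 : (1 - p) ^ n ≤ (1 - p) ^ (n - a - X) :=
      pow_le_pow_of_le_one (by linarith) (by linarith) (by omega)
    refine le_trans ?_ h7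
    have h8 := one_sub_ge_exp' hp.le hp2
    calc exp (-l - 1) ≤ exp (-(p + 2 * p ^ 2)) ^ n := by
          rw [← exp_nat_mul]
          apply exp_le_exp.2
          rw [hl] at hlp ⊢
          nlinarith
      _ ≤ (1 - p) ^ n := pow_le_pow_left₀ (exp_pos _).le h8 n
  have h9 := fact_le X hX
  have hC0 : 0 ≤ ((n - a).choose X : ℝ) := Nat.cast_nonneg _
  have hf0 : (0 : ℝ) < X.factorial := by exact_mod_cast Nat.factorial_pos X
  rw [div_le_iff₀ hX0]
  -- combine
  have h10 : exp (X * log l - 4 * τ * X) * exp (-l - 1) ≤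
      (p ^ X * (X.factorial * ((n - a).choose X : ℝ))) * (1 - p) ^ (n - a - X) := by
    apply mul_le_mul _ h6 (exp_pos _).le
    · positivity
    · exact h3.trans (mul_le_mul_of_nonneg_left h1 (pow_nonneg hp.le _))
  have h11 : exp (-Ph l X - 4 * τ * X - 2) * exp (X * log X - X + 1) =
      exp (X * log l - 4 * τ * X) * exp (-l - 1) := by
    rw [← exp_add, ← exp_add]
    congr 1
    unfold Ph
    rw [log_div hX0.ne' hl0.ne']
    ring
  have hQ : 0 ≤ p ^ X * (1 - p) ^ (n - a - X) :=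
    mul_nonneg (pow_nonneg hp.le _) (pow_nonneg (by linarith) _)
  have h12 : exp (-Ph l X - 4 * τ * X - 2) * exp (X * log X - X + 1) ≤
      (((n - a).choose X : ℝ) * (p ^ X * (1 - p) ^ (n - a - X)) * X) *
        exp (X * log X - X + 1) := by
    rw [h11]
    refine h10.trans ?_
    have h13 : (X.factorial : ℝ) * (((n - a).choose X : ℝ) * (p ^ X * (1 - p) ^ (n - a - X))) ≤
        (X * exp (X * log X - X + 1)) *
          (((n - a).choose X : ℝ) * (p ^ X * (1 - p) ^ (n - a - X))) :=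
      mul_le_mul_of_nonneg_right h9 (mul_nonneg hC0 hQ)
    nlinarith
  exact le_of_mul_le_mul_right h12 (exp_pos _)

/-- The probability bound for the absence of vertices of degree `X`. -/
theorem no_deg (n a X : ℕ) (p τ r : ℝ) (hn : 1 ≤ n) (hp : 0 < p) (hp2 : p ≤ 1 / 2)
    (hX : 1 ≤ X) (hτ : 0 ≤ τ) (hτ4 : τ ≤ 1 / 4)
    (hN : (1 - 2 * τ) * n ≤ ((n - a + 1 - X : ℕ) : ℝ)) (hlp : 2 * (n * p) * p ≤ 1)
    (hr : r ≤ a * (exp (-Ph (n * p) X - 4 * τ * X - 2) / X))
    (hb1 : ((n - a).choose X : ℝ) * (p ^ X * (1 - p) ^ (n - a - X)) ≤ 1) :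
    (1 - ((n - a).choose X : ℝ) * (p ^ X * (1 - p) ^ (n - a - X))) ^ a ≤ exp (-r) := by
  set b := ((n - a).choose X : ℝ) * (p ^ X * (1 - p) ^ (n - a - X)) with hb
  have h1 := binom_lower n a X p τ hn hp hp2 hX hτ hτ4 hN hlp
  have h2 : 1 - b ≤ exp (-b) := by
    have := add_one_le_exp (-b)
    linarith
  calc (1 - b) ^ a ≤ exp (-b) ^ a := pow_le_pow_left₀ (by linarith) h2 a
    _ = exp (-(a * b)) := by rw [← exp_nat_mul]; ring_nf
    _ ≤ exp (-r) := by
      apply exp_le_exp.2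
      have : (a : ℝ) * (exp (-Ph (n * p) X - 4 * τ * X - 2) / X) ≤ a * b :=
        mul_le_mul_of_nonneg_left h1 (Nat.cast_nonneg _)
      linarith

end Pool.Agent.Q127.LR
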