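import Pool.Agent.Q127.LR.Prob

set_option autoImplicit false
set_option linter.unusedSectionVars false

/-!
# Union bounds
-/

namespace Pool.Agent.Q127.LR

open Finset Pool.Agent.TH559.LE Pool.Agent.TH948.SH Pool.Agent.TH965.Spread Pool.Agent.TH965.Emb
open scoped Classical

variable {n : ℕ}

theorem card_sym2_le (W : Finset (Fin n)) : W.sym2.card ≤ W.card ^ 2 := by
  rw [card_sym2, Nat.choose_two_right]
  rcases Nat.eq_zero_or_pos W.card with h | h
  · simp [h]
  · apply Nat.div_le_of_le_mul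
    rw [Nat.add_sub_cancel, pow_two]
    nlinarith

/-- A model of random graphs: `μ P` is the probability of the property `P`, and given edges are all
present with probability at most `q` to the power of their number. -/
structure Model (μ : (SimpleGraph (Fin n) → Prop) → ℝ) (q : ℝ) : Prop where
  mono : ∀ P Q : SimpleGraph (Fin n) → Prop, (∀ G, P G → Q G) → μ P ≤ μ Q
  union : ∀ {ι : Type} (s : Finset ι) (P : ι → SimpleGraph (Fin n) → Prop),
    μ (fun G => ∃ i ∈ s, P i G) ≤ ∑ i ∈ s, μ (P i)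
  present : ∀ T : Finset (Sym2 (Fin n)), (∀ e ∈ T, ¬ e.IsDiag) →
    μ (fun G => ∀ e ∈ T, e ∈ G.edgeSet) ≤ q ^ T.card

theorem model_gnp (p : ℝ) (hp0 : 0 ≤ p) (hp1 : p ≤ 1) : Model (gnp n p) p :=
  ⟨fun _ _ h => gnp_imp hp0 hp1 h, fun s P => gnp_union hp0 hp1 s P,
    fun T hT => (gnp_present T hT).le⟩

theorem Model.false {μ : (SimpleGraph (Fin n) → Prop) → ℝ} {q : ℝ} (h : Model μ q)
    (P : SimpleGraph (Fin n) → Prop) (hP : ∀ G, ¬ P G) : μ P ≤ 0 := by
  have h1 := h.union (∅ : Finset Unit) (fun _ _ => True)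
  rw [sum_empty] at h1
  exact (h.mono _ _ (fun G hG => absurd hG (hP G))).trans h1

theorem Model.rare {μ : (SimpleGraph (Fin n) → Prop) → ℝ} {q : ℝ} (h : Model μ q) (hq : 0 ≤ q)
    (t r : ℕ) :
    μ (fun G => ∃ (W : Finset (Fin n)) (T : Finset (Sym2 (Fin n))), W.card = t ∧ T.card = r ∧
      (∀ e ∈ T, e ∈ G.edgeSet) ∧ ∀ e ∈ T, ∀ x ∈ e, x ∈ W) ≤
      (n : ℝ) ^ t * 2 ^ (t ^ 2) * q ^ r := by
  have h1 : μ (fun G => ∃ (W : Finset (Fin n)) (T : Finset (Sym2 (Fin n))), W.card = t ∧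
      T.card = r ∧ (∀ e ∈ T, e ∈ G.edgeSet) ∧ ∀ e ∈ T, ∀ x ∈ e, x ∈ W) ≤
      μ (fun G => ∃ W ∈ powersetCard t (univ : Finset (Fin n)), ∃ T ∈ W.sym2.powerset,
        T.card = r ∧ ∀ e ∈ T, e ∈ G.edgeSet) := by
    apply h.mono
    rintro G ⟨W, T, hW, hT, h2, h3⟩
    refine ⟨W, mem_powersetCard.2 ⟨subset_univ _, hW⟩, T, ?_, hT, h2⟩
    rw [mem_powerset]
    intro e he
    rw [mem_sym2_iff]
    exact h3 e he
  refine h1.trans ((h.union _ _).trans ?_)
  have h2 : ∀ W ∈ powersetCard t (univ : Finset (Fin n)),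
      μ (fun G => ∃ T ∈ W.sym2.powerset, T.card = r ∧ ∀ e ∈ T, e ∈ G.edgeSet) ≤
        2 ^ (t ^ 2) * q ^ r := by
    intro W hW
    rw [mem_powersetCard] at hW
    refine (h.union _ _).trans ?_
    have h3 : ∀ T ∈ W.sym2.powerset, μ (fun G => T.card = r ∧ ∀ e ∈ T, e ∈ G.edgeSet) ≤ q ^ r := by
      intro T _
      by_cases hTr : T.card = r
      · by_cases hTd : ∀ e ∈ T, ¬ e.IsDiag
        · rw [← hTr]
          exact (h.mono _ _ (fun G hG => hG.2)).trans (h.present T hTd)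
        · push Not at hTd
          obtain ⟨e, he, hed⟩ := hTd
          refine (h.false _ ?_).trans (pow_nonneg hq _)
          rintro G ⟨_, hG⟩
          exact G.not_isDiag_of_mem_edgeSet (hG e he) hed
      · exact (h.false _ (fun G hG => hTr hG.1)).trans (pow_nonneg hq _)
    refine (sum_le_sum h3).trans ?_
    rw [sum_const, nsmul_eq_mul, card_powerset]
    apply mul_le_mul_of_nonneg_right _ (pow_nonneg hq _)
    push_cast
    apply pow_le_pow_right₀ (by norm_num)
    rw [← hW.2]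
    exact card_sym2_le W
  refine (sum_le_sum h2).trans ?_
  rw [sum_const, nsmul_eq_mul, card_powersetCard, card_univ, Fintype.card_fin, mul_assoc]
  apply mul_le_mul_of_nonneg_right _ (by positivity)
  exact_mod_cast Nat.choose_le_pow n t

/-- In a very sparse random graph there are no dense small sets and no big connected sets. -/
theorem Model.sparse {μ : (SimpleGraph (Fin n) → Prop) → ℝ} {q : ℝ} (h : Model μ q) (hq : 0 ≤ q)
    (hnq : n * q ≤ 1) (t : ℕ) (ht : 1 ≤ t) (ε l : ℝ) :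
    μ (fun G => ¬ Fine ε l G) ≤
      2 * t * 2 ^ (4 * t ^ 2) * (n * q + n * (n * q) ^ (t - 1)) := by
  have hnq0 : 0 ≤ (n : ℝ) * q := by positivity
  set E : ℕ × ℕ → SimpleGraph (Fin n) → Prop := fun a G =>
    ∃ (W : Finset (Fin n)) (T : Finset (Sym2 (Fin n))), W.card = a.1 ∧ T.card = a.2 ∧
      (∀ e ∈ T, e ∈ G.edgeSet) ∧ ∀ e ∈ T, ∀ x ∈ e, x ∈ W with hE
  set s : Finset ℕ := Icc 1 (2 * t - 1) with hs
  have h1 : μ (fun G => ¬ Fine ε l G) ≤
      μ (fun G => ∃ a ∈ s, E (a, if a < t then a else a - 1) G) := by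
    apply h.mono
    intro G hG
    by_contra hno
    apply hG
    refine fine_sparse ε l G t ht ?_ ?_
    · rintro ⟨W, T, h3, h4, h5, h6, h7⟩
      apply hno
      have h8 := card_pos.2 h3
      refine ⟨W.card, ?_, W, T, rfl, ?_, h6, h7⟩
      · rw [hs, mem_Icc]; omega
      · show T.card = if W.card < t then W.card else W.card - 1
        rw [if_pos h4, h5]
    · rintro ⟨W, T, h3, h4, h5⟩
      apply hno
      refine ⟨W.card, ?_, W, T, rfl, ?_, h3.sub, h3.ins⟩
      · rw [hs, mem_Icc]; omega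
      · show T.card = if W.card < t then W.card else W.card - 1
        have := h3.card
        rw [if_neg (by omega)]
        omega
  have hX : ∀ a ∈ s, (n : ℝ) ^ a * 2 ^ (a ^ 2) ≤ (n : ℝ) ^ a * 2 ^ (4 * t ^ 2) := by
    intro a ha
    rw [hs, mem_Icc] at ha
    apply mul_le_mul_of_nonneg_left _ (by positivity)
    apply pow_le_pow_right₀ (by norm_num)
    have : a ≤ 2 * t := by omega
    calc a ^ 2 ≤ (2 * t) ^ 2 := Nat.pow_le_pow_left this 2
      _ = 4 * t ^ 2 := by ring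
  have hp1 : ∀ a : ℕ, t ≤ a → (n : ℝ) ^ a * q ^ (a - 1) ≤ n * (n * q) ^ (t - 1) := by
    intro a ha
    obtain ⟨b, rfl⟩ : ∃ b, a = b + 1 := ⟨a - 1, by omega⟩
    rw [Nat.add_sub_cancel]
    calc (n : ℝ) ^ (b + 1) * q ^ b = n * (n * q) ^ b := by rw [mul_pow]; ring
      _ ≤ n * (n * q) ^ (t - 1) := by
        apply mul_le_mul_of_nonneg_left _ (by positivity)
        exact pow_le_pow_of_le_one hnq0 hnq (by omega)
  have hA : ∀ a ∈ s, μ (E (a, if a < t then a else a - 1)) ≤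
      2 ^ (4 * t ^ 2) * (n * q + n * (n * q) ^ (t - 1)) := by
    intro a ha
    refine (h.rare hq a (if a < t then a else a - 1)).trans ?_
    have h9 : (n : ℝ) ^ a * q ^ (if a < t then a else a - 1) ≤
        n * q + n * (n * q) ^ (t - 1) := by
      split_ifs with hat
      · rw [← mul_pow]
        rw [hs, mem_Icc] at ha
        have h10 : ((n : ℝ) * q) ^ a ≤ (n * q) ^ 1 := pow_le_pow_of_le_one hnq0 hnq ha.1
        have h11 : 0 ≤ (n : ℝ) * (n * q) ^ (t - 1) := by positivity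
        linarith
      · have := hp1 a (by omega)
        linarith
    calc (n : ℝ) ^ a * 2 ^ (a ^ 2) * q ^ (if a < t then a else a - 1)
        ≤ (n : ℝ) ^ a * 2 ^ (4 * t ^ 2) * q ^ (if a < t then a else a - 1) :=
          mul_le_mul_of_nonneg_right (hX a ha) (pow_nonneg hq _)
      _ = 2 ^ (4 * t ^ 2) * ((n : ℝ) ^ a * q ^ (if a < t then a else a - 1)) := by ring
      _ ≤ _ := mul_le_mul_of_nonneg_left h9 (by positivity)
  have hcs : s.card ≤ 2 * t := by rw [hs, Nat.card_Icc]; omega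
  have hcs' : (s.card : ℝ) ≤ 2 * t := by exact_mod_cast hcs
  refine h1.trans ((h.union _ _).trans ((sum_le_sum hA).trans ?_))
  rw [sum_const, nsmul_eq_mul, mul_assoc]
  exact mul_le_mul_of_nonneg_right hcs' (by positivity)

end Pool.Agent.Q127.LR
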